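import Mathlib

set_option autoImplicit false

namespace Pool.Agent.Work.MP_fad7c9_gt

open scoped Manifold ContDiff

/-- Euclidean 8-space. -/
abbrev E8 : Type := EuclideanSpace ℝ (Fin 8)

/-- The unit sphere of Euclidean 8-space. -/
abbrev S7 : Type := Metric.sphere (0 : E8) 1

/-- Four real skew-symmetric `8 × 8` matrices with `A i * A j + A j * A i = -2 δ i j • 1`. -/
structure CliffordQuadruple (A : Fin 4 → Matrix (Fin 8) (Fin 8) ℝ) : Prop where
  skew : ∀ k, (A k).transpose = -A k
  rel : ∀ i j, A i * A j + A j * A i =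
    (if i = j then (-2 : ℝ) else 0) • (1 : Matrix (Fin 8) (Fin 8) ℝ)

/-- The linear vector field of a matrix: `X(M)` at `x` is the vector `M x`. -/
noncomputable def X (M : Matrix (Fin 8) (Fin 8) ℝ) (x : E8) : E8 := Matrix.toEuclideanLin M x

/-- The horizontal space at `x`: the span of `X(A 0), ..., X(A 3)` at `x`. -/
noncomputable def Hor (A : Fin 4 → Matrix (Fin 8) (Fin 8) ℝ) (x : E8) : Submodule ℝ E8 :=
  Submodule.span ℝ (Set.range fun k => X (A k) x)

/-- A tangent vector of the sphere, seen as a vector of Euclidean 8-space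
(the differential of the inclusion). -/
noncomputable def ambient (x : S7) (v : TangentSpace (𝓡 7) x) : E8 :=
  mvfderiv (𝓡 7) (Subtype.val : S7 → E8) x v

/-- A diffeomorphism of the 7-sphere is a sub-Riemannian isometry if its differential maps
horizontal vectors to horizontal vectors and preserves their length. -/
def IsSubRiemannianIsometry (A : Fin 4 → Matrix (Fin 8) (Fin 8) ℝ)
    (φ : Diffeomorph (𝓡 7) (𝓡 7) S7 S7 ∞) : Prop :=
  ∀ (x : S7) (v : TangentSpace (𝓡 7) x), ambient x v ∈ Hor A x →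
    ambient (φ x) (mfderiv (𝓡 7) (𝓡 7) φ x v) ∈ Hor A (φ x) ∧
      ‖ambient (φ x) (mfderiv (𝓡 7) (𝓡 7) φ x v)‖ = ‖ambient x v‖

/-- The set of all sub-Riemannian isometries, inside the space `C(S7, S7)` of continuous maps
with the compact-open topology. -/
def isometryGroup (A : Fin 4 → Matrix (Fin 8) (Fin 8) ℝ) : Set C(S7, S7) :=
  {f | ∃ φ : Diffeomorph (𝓡 7) (𝓡 7) S7 S7 ∞, IsSubRiemannianIsometry A φ ∧ ∀ x, f x = φ x}

end Pool.Agent.Work.MP_fad7c9_gt
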