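import Mathlib
import Pool.Agent.Work.MP_fad7c9_gt.Defs

set_option autoImplicit false

namespace Pool.Agent.Work.MP_fad7c9_gt

/-- An explicit integral quadruple. -/
def B : Fin 4 → Matrix (Fin 8) (Fin 8) ℤ :=
  ![!![0, 0, 0, 0, -1, 0, 0, 0;
       0, 0, 0, 0, 0, -1, 0, 0;
       0, 0, 0, 0, 0, 0, -1, 0;
       0, 0, 0, 0, 0, 0, 0, -1;
       1, 0, 0, 0, 0, 0, 0, 0;
       0, 1, 0, 0, 0, 0, 0, 0;
       0, 0, 1, 0, 0, 0, 0, 0;
       0, 0, 0, 1, 0, 0, 0, 0],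
    !![0, 0, 0, 0, 0, -1, 0, 0;
       0, 0, 0, 0, 1, 0, 0, 0;
       0, 0, 0, 0, 0, 0, 0, -1;
       0, 0, 0, 0, 0, 0, 1, 0;
       0, -1, 0, 0, 0, 0, 0, 0;
       1, 0, 0, 0, 0, 0, 0, 0;
       0, 0, 0, -1, 0, 0, 0, 0;
       0, 0, 1, 0, 0, 0, 0, 0],
    !![0, 0, 0, 0, 0, 0, -1, 0;
       0, 0, 0, 0, 0, 0, 0, 1;
       0, 0, 0, 0, 1, 0, 0, 0;
       0, 0, 0, 0, 0, -1, 0, 0;
       0, 0, -1, 0, 0, 0, 0, 0;
       0, 0, 0, 1, 0, 0, 0, 0;
       1, 0, 0, 0, 0, 0, 0, 0;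
       0, -1, 0, 0, 0, 0, 0, 0],
    !![0, 0, 0, 0, 0, 0, 0, -1;
       0, 0, 0, 0, 0, 0, -1, 0;
       0, 0, 0, 0, 0, 1, 0, 0;
       0, 0, 0, 0, 1, 0, 0, 0;
       0, 0, 0, -1, 0, 0, 0, 0;
       0, 0, -1, 0, 0, 0, 0, 0;
       0, 1, 0, 0, 0, 0, 0, 0;
       1, 0, 0, 0, 0, 0, 0, 0]]

theorem B_skew : ∀ k, (B k).transpose = -B k := by decide

set_option maxRecDepth 20000 in
theorem B_rel : ∀ i j, B i * B j + B j * B i =
    (if i = j then (-2 : ℤ) else 0) • (1 : Matrix (Fin 8) (Fin 8) ℤ) := by decide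

/-- Clifford quadruples exist. -/
theorem exists_quadruple : ∃ A, CliffordQuadruple A := by
  refine ⟨fun k => (B k).map (Int.castRingHom ℝ), ?_, ?_⟩
  · intro k
    have h := B_skew k
    ext i j
    have h1 := congrFun (congrFun h i) j
    simp only [Matrix.transpose_apply, Matrix.neg_apply] at h1
    simp only [Matrix.transpose_apply, Matrix.neg_apply, Matrix.map_apply, h1, map_neg]
  · intro i j
    have h := congrArg (fun M => M.map (Int.castRingHom ℝ)) (B_rel i j)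
    rw [Matrix.map_add _ (map_add _), Matrix.map_mul, Matrix.map_mul] at h
    rw [h]
    ext a b
    simp only [Matrix.map_apply, Matrix.smul_apply, smul_eq_mul, map_mul]
    congr 1
    · split_ifs <;> simp
    · rw [Matrix.one_apply, Matrix.one_apply]
      split_ifs <;> simp

end Pool.Agent.Work.MP_fad7c9_gt
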