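import Mathlib

set_option autoImplicit false

namespace Pool.Agent.Work.MP_fad7c9_gt

open scoped InnerProductSpace Topology
open Filter

variable {E : Type*} [NormedAddCommGroup E] [InnerProductSpace ℝ E]

/-- Four skew-adjoint anticommuting complex structures. -/
structure Cliff (A : Fin 4 → E →L[ℝ] E) : Prop where
  skew : ∀ k x y, ⟪A k x, y⟫_ℝ = -⟪x, A k y⟫_ℝ
  sq : ∀ k x, A k (A k x) = -x
  anti : ∀ i j, i ≠ j → ∀ x, A i (A j x) = -A j (A i x)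

/-- The linear combination `∑ q k • A k x`. -/
def Aq (A : Fin 4 → E →L[ℝ] E) (q : Fin 4 → ℝ) : E →L[ℝ] E := ∑ k, q k • A k

theorem Aq_apply (A : Fin 4 → E →L[ℝ] E) (q : Fin 4 → ℝ) (x : E) :
    Aq A q x = ∑ k, q k • A k x := by
  simp [Aq]

/-- The chirality operator. -/
def om (A : Fin 4 → E →L[ℝ] E) : E →L[ℝ] E := (A 0).comp ((A 1).comp ((A 2).comp (A 3)))

theorem om_apply (A : Fin 4 → E →L[ℝ] E) (x : E) : om A x = A 0 (A 1 (A 2 (A 3 x))) := rfl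

/-- Squared length of a coefficient vector. -/
def nsq (q : Fin 4 → ℝ) : ℝ := ∑ k, q k ^ 2

namespace Cliff

variable {A : Fin 4 → E →L[ℝ] E}

theorem s10 (C : Cliff A) (x : E) : A 1 (A 0 x) = -A 0 (A 1 x) := C.anti 1 0 (by decide) x
theorem s20 (C : Cliff A) (x : E) : A 2 (A 0 x) = -A 0 (A 2 x) := C.anti 2 0 (by decide) x
theorem s30 (C : Cliff A) (x : E) : A 3 (A 0 x) = -A 0 (A 3 x) := C.anti 3 0 (by decide) x
theorem s21 (C : Cliff A) (x : E) : A 2 (A 1 x) = -A 1 (A 2 x) := C.anti 2 1 (by decide) x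
theorem s31 (C : Cliff A) (x : E) : A 3 (A 1 x) = -A 1 (A 3 x) := C.anti 3 1 (by decide) x
theorem s32 (C : Cliff A) (x : E) : A 3 (A 2 x) = -A 2 (A 3 x) := C.anti 3 2 (by decide) x

theorem om_sq (C : Cliff A) (x : E) : om A (om A x) = x := by
  simp only [om_apply, C.s10, C.s20, C.s30, C.s21, C.s31, C.s32, C.sq, map_neg, neg_neg]

theorem om_anti (C : Cliff A) (k : Fin 4) (x : E) : om A (A k x) = -A k (om A x) := by
  fin_cases k <;>
  simp [om_apply, C.s10, C.s20, C.s30, C.s21, C.s31, C.s32, C.sq, map_neg, neg_neg]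

theorem om_symm (C : Cliff A) (x y : E) : ⟪om A x, y⟫_ℝ = ⟪x, om A y⟫_ℝ := by
  simp only [om_apply, C.skew, neg_neg]
  simp only [C.s10, C.s20, C.s30, C.s21, C.s31, C.s32, map_neg, neg_neg]

theorem om_Aq (C : Cliff A) (q : Fin 4 → ℝ) (x : E) : om A (Aq A q x) = -Aq A q (om A x) := by
  rw [Aq_apply, Aq_apply, map_sum, ← Finset.sum_neg_distrib]
  apply Finset.sum_congr rfl
  intro k _
  rw [map_smul, C.om_anti, smul_neg]

theorem Aq_sq (C : Cliff A) (q : Fin 4 → ℝ) (x : E) : Aq A q (Aq A q x) = -(nsq q • x) := by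
  simp only [Aq_apply, nsq, Fin.sum_univ_four, map_add, map_smul, C.s10, C.s20, C.s30, C.s21,
    C.s31, C.s32, C.sq]
  module

theorem Aq_skew (C : Cliff A) (q : Fin 4 → ℝ) (x y : E) :
    ⟪Aq A q x, y⟫_ℝ = -⟪x, Aq A q y⟫_ℝ := by
  simp only [Aq_apply, sum_inner, inner_sum, real_inner_smul_left, real_inner_smul_right, C.skew,
    mul_neg, Finset.sum_neg_distrib]

theorem Aq_inner (C : Cliff A) (q : Fin 4 → ℝ) (x : E) :
    ⟪Aq A q x, Aq A q x⟫_ℝ = nsq q * ⟪x, x⟫_ℝ := by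
  rw [C.Aq_skew, C.Aq_sq, inner_neg_right, neg_neg, real_inner_smul_right]

theorem inner_A_self (C : Cliff A) (k : Fin 4) (x : E) : ⟪A k x, A k x⟫_ℝ = ⟪x, x⟫_ℝ := by
  rw [C.skew, C.sq, inner_neg_right, neg_neg]

theorem inner_A_ne (C : Cliff A) {j k : Fin 4} (h : j ≠ k) (x : E) : ⟪A j x, A k x⟫_ℝ = 0 := by
  have h1 : ⟪A j x, A k x⟫_ℝ = -⟪x, A j (A k x)⟫_ℝ := C.skew j x _
  have h2 : ⟪A k x, A j x⟫_ℝ = -⟪x, A k (A j x)⟫_ℝ := C.skew k x _
  rw [C.anti k j (Ne.symm h), inner_neg_right, neg_neg, real_inner_comm] at h2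
  linarith

theorem inner_A (C : Cliff A) (j k : Fin 4) (x : E) :
    ⟪A j x, A k x⟫_ℝ = if j = k then ⟪x, x⟫_ℝ else 0 := by
  split_ifs with h
  · subst h; exact C.inner_A_self j x
  · exact C.inner_A_ne h x

theorem inner_x_A (C : Cliff A) (k : Fin 4) (x : E) : ⟪x, A k x⟫_ℝ = 0 := by
  have := C.skew k x x
  rw [real_inner_comm] at this
  linarith

theorem om_inner_Aq (C : Cliff A) (q : Fin 4 → ℝ) (x : E) :
    ⟪om A (Aq A q x), Aq A q x⟫_ℝ = -(nsq q * ⟪om A x, x⟫_ℝ) := by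
  rw [C.om_Aq, inner_neg_left, C.Aq_skew, neg_neg, C.Aq_sq, inner_neg_right,
    real_inner_smul_right]

end Cliff

/-- The bivector operator `∑ i<j c i j A_i A_j` written with six coefficients. -/
def Biv (A : Fin 4 → E →L[ℝ] E) (c : Fin 4 → Fin 4 → ℝ) (x : E) : E :=
  c 0 1 • A 0 (A 1 x) + c 0 2 • A 0 (A 2 x) + c 0 3 • A 0 (A 3 x) + c 1 2 • A 1 (A 2 x) +
    c 1 3 • A 1 (A 3 x) + c 2 3 • A 2 (A 3 x)

/-- Pfaffian. -/
def Pf (c : Fin 4 → Fin 4 → ℝ) : ℝ := c 0 1 * c 2 3 - c 0 2 * c 1 3 + c 0 3 * c 1 2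

/-- Squared norm of the six coefficients. -/
def csq (c : Fin 4 → Fin 4 → ℝ) : ℝ :=
  c 0 1 ^ 2 + c 0 2 ^ 2 + c 0 3 ^ 2 + c 1 2 ^ 2 + c 1 3 ^ 2 + c 2 3 ^ 2

namespace Cliff

variable {A : Fin 4 → E →L[ℝ] E}

theorem Biv_sq (C : Cliff A) (c : Fin 4 → Fin 4 → ℝ) (x : E) :
    Biv A c (Biv A c x) = -(csq c • x) + (2 * Pf c) • om A x := by
  simp only [Biv, csq, Pf, om_apply, map_add, map_smul, C.s10, C.s20, C.s30, C.s21,
    C.s31, C.s32, C.sq, map_neg, neg_neg, smul_neg]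
  module

theorem Biv_skew (C : Cliff A) (c : Fin 4 → Fin 4 → ℝ) (x y : E) :
    ⟪Biv A c x, y⟫_ℝ = -⟪x, Biv A c y⟫_ℝ := by
  simp only [Biv, inner_add_left, inner_add_right, real_inner_smul_left, real_inner_smul_right,
    C.skew, neg_neg]
  simp only [C.s10, C.s20, C.s30, C.s21, C.s31, C.s32, inner_neg_right]
  ring

theorem om_Biv (C : Cliff A) (c : Fin 4 → Fin 4 → ℝ) (x : E) :
    om A (Biv A c x) = Biv A c (om A x) := by
  simp only [Biv, map_add, map_smul, C.om_anti, map_neg, neg_neg]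

theorem Biv_inner (C : Cliff A) (c : Fin 4 → Fin 4 → ℝ) (x : E) :
    ⟪Biv A c x, Biv A c x⟫_ℝ = csq c * ⟪x, x⟫_ℝ - 2 * Pf c * ⟪om A x, x⟫_ℝ := by
  rw [C.Biv_skew, C.Biv_sq, inner_add_right, inner_neg_right, real_inner_smul_right,
    real_inner_smul_right, C.om_symm]
  ring

theorem Biv_om_inner (C : Cliff A) (c : Fin 4 → Fin 4 → ℝ) (x : E) :
    ⟪om A (Biv A c x), Biv A c x⟫_ℝ = csq c * ⟪om A x, x⟫_ℝ - 2 * Pf c * ⟪x, x⟫_ℝ := by
  rw [C.om_Biv, C.Biv_skew, C.Biv_sq, inner_add_right, inner_neg_right, real_inner_smul_right,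
    real_inner_smul_right, C.om_symm, C.om_symm, C.om_sq]
  ring

/-- The algebraic relation satisfied by bivectors mapping `x` to a horizontal vector. -/
theorem kernel_relation (C : Cliff A) (c : Fin 4 → Fin 4 → ℝ) (p : Fin 4 → ℝ) (x : E)
    (h : Biv A c x = Aq A p x) :
    csq c * (⟪om A x, x⟫_ℝ * ⟪x, x⟫_ℝ) = Pf c * (⟪x, x⟫_ℝ ^ 2 + ⟪om A x, x⟫_ℝ ^ 2) := by
  have h1 := C.Biv_inner c x
  have h2 := C.Biv_om_inner c x
  rw [h, C.Aq_inner] at h1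
  rw [h, C.om_inner_Aq] at h2
  linear_combination (-⟪om A x, x⟫_ℝ / 2) * h1 + (-⟪x, x⟫_ℝ / 2) * h2

end Cliff

end Pool.Agent.Work.MP_fad7c9_gt
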