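import Mathlib
import Pool.Agent.Work.MP_fad7c9_gt.Cliff

set_option autoImplicit false

namespace Pool.Agent.Work.MP_fad7c9_gt

open scoped InnerProductSpace Topology Matrix
open Filter

/-! ### Algebra of `4 × 4` antisymmetric matrices -/

theorem Pf_conj (G c : Matrix (Fin 4) (Fin 4) ℝ) (hc : ∀ i j, c i j = -c j i) :
    Pf (G * c * Gᵀ) = G.det * Pf c := by
  have h00 : c 0 0 = 0 := by have := hc 0 0; linarith
  have h11 : c 1 1 = 0 := by have := hc 1 1; linarith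
  have h22 : c 2 2 = 0 := by have := hc 2 2; linarith
  have h33 : c 3 3 = 0 := by have := hc 3 3; linarith
  simp only [Pf, Matrix.mul_apply, Fin.sum_univ_four, Matrix.transpose_apply, h00, h11, h22, h33,
    hc 1 0, hc 2 0, hc 3 0, hc 2 1, hc 3 1, hc 3 2]
  simp only [Matrix.det_succ_row_zero, Fin.sum_univ_succ, Matrix.submatrix_apply,
    Fin.succ_zero_eq_one, Fin.succ_one_eq_two, Finset.univ_unique, Finset.sum_singleton,
    Matrix.det_unique, Fin.default_eq_zero, Fin.val_zero, Fin.val_succ, pow_zero,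
    Fin.zero_succAbove, Fin.succ_succAbove_zero]
  simp [Fin.succAbove, Fin.lt_def]
  ring

theorem csq_trace (c : Matrix (Fin 4) (Fin 4) ℝ) (hc : ∀ i j, c i j = -c j i) :
    2 * csq c = (c * cᵀ).trace := by
  have h00 : c 0 0 = 0 := by have := hc 0 0; linarith
  have h11 : c 1 1 = 0 := by have := hc 1 1; linarith
  have h22 : c 2 2 = 0 := by have := hc 2 2; linarith
  have h33 : c 3 3 = 0 := by have := hc 3 3; linarith
  simp only [csq, Matrix.trace, Matrix.diag, Matrix.mul_apply, Fin.sum_univ_four,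
    Matrix.transpose_apply, h00, h11, h22, h33,
    hc 1 0, hc 2 0, hc 3 0, hc 2 1, hc 3 1, hc 3 2]
  ring

theorem conj_antisymm (G c : Matrix (Fin 4) (Fin 4) ℝ) (hc : ∀ i j, c i j = -c j i) :
    ∀ i j, (G * c * Gᵀ) i j = -(G * c * Gᵀ) j i := by
  have hc' : cᵀ = -c := by
    ext i j
    rw [Matrix.transpose_apply, Matrix.neg_apply, hc j i]
  intro i j
  have : (G * c * Gᵀ)ᵀ = -(G * c * Gᵀ) := by
    rw [Matrix.transpose_mul, Matrix.transpose_mul, Matrix.transpose_transpose, hc']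
    simp [Matrix.mul_assoc]
  have h2 := congrFun (congrFun this j) i
  rw [Matrix.transpose_apply, Matrix.neg_apply] at h2
  exact h2

theorem csq_conj (G c : Matrix (Fin 4) (Fin 4) ℝ) (hc : ∀ i j, c i j = -c j i)
    (hG : Gᵀ * G = 1) : csq (G * c * Gᵀ) = csq c := by
  have h1 := csq_trace c hc
  have h2 := csq_trace (G * c * Gᵀ) (conj_antisymm G c hc)
  have h3 : (G * c * Gᵀ) * (G * c * Gᵀ)ᵀ = G * (c * cᵀ * Gᵀ) := by
    rw [Matrix.transpose_mul, Matrix.transpose_mul, Matrix.transpose_transpose]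
    calc G * c * Gᵀ * (G * (cᵀ * Gᵀ)) = G * c * (Gᵀ * G) * (cᵀ * Gᵀ) := by
          simp only [Matrix.mul_assoc]
      _ = _ := by rw [hG, Matrix.mul_one]; simp only [Matrix.mul_assoc]
  have h4 : c * cᵀ * Gᵀ * G = c * cᵀ := by rw [Matrix.mul_assoc, hG, Matrix.mul_one]
  rw [h3, Matrix.trace_mul_comm, h4, ← h1] at h2
  linarith

theorem orth_of_nsq (G : Matrix (Fin 4) (Fin 4) ℝ) (h : ∀ q, nsq (G *ᵥ q) = nsq q) :
    Gᵀ * G = 1 := by
  have hdot : ∀ q : Fin 4 → ℝ, nsq q = q ⬝ᵥ q := by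
    intro q; simp [nsq, dotProduct, pow_two]
  have hpol : ∀ a b : Fin 4 → ℝ, (G *ᵥ a) ⬝ᵥ (G *ᵥ b) = a ⬝ᵥ b := by
    intro a b
    have h1 := h (a + b)
    have h2 := h a
    have h3 := h b
    rw [hdot, hdot] at h1 h2 h3
    rw [Matrix.mulVec_add, add_dotProduct, dotProduct_add, dotProduct_add, add_dotProduct,
      dotProduct_add, dotProduct_add, dotProduct_comm (G *ᵥ b) (G *ᵥ a), dotProduct_comm b a] at h1
    linarith
  ext i j
  have h1 := hpol (Pi.single i 1) (Pi.single j 1)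
  rw [Matrix.mulVec_single_one, Matrix.mulVec_single_one] at h1
  rw [Matrix.mul_apply, Matrix.one_apply]
  simp only [dotProduct, Matrix.col_apply] at h1
  simp only [Matrix.transpose_apply]
  rw [h1]
  simp [Pi.single_apply, eq_comm]

theorem det_sq_of_orth (G : Matrix (Fin 4) (Fin 4) ℝ) (hG : Gᵀ * G = 1) : G.det ^ 2 = 1 := by
  have := congrArg Matrix.det hG
  rw [Matrix.det_mul, Matrix.det_transpose, Matrix.det_one] at this
  rw [pow_two]; exact this

/-! ### The hypotheses on the homogeneous extension of an isometry -/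

variable {E : Type*} [NormedAddCommGroup E] [InnerProductSpace ℝ E]

/-- `F` is the degree one homogeneous extension of a sub-Riemannian isometry. -/
structure HIso (A : Fin 4 → E →L[ℝ] E) (F : E → E) : Prop where
  smooth : ∀ x, x ≠ 0 → ContDiffAt ℝ 2 F x
  homog : ∀ t : ℝ, 0 < t → ∀ x, F (t • x) = t • F x
  norm : ∀ x, ‖F x‖ = ‖x‖
  hor : ∀ x, x ≠ 0 → ∀ q : Fin 4 → ℝ, ∃ p : Fin 4 → ℝ,
    fderiv ℝ F x (Aq A q x) = Aq A p (F x) ∧ nsq p = nsq q

/-- The matrix of the differential of `F` in the horizontal frames. -/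
noncomputable def Gm (A : Fin 4 → E →L[ℝ] E) (F : E → E) (x : E) : Matrix (Fin 4) (Fin 4) ℝ :=
  fun j k => ⟪A j (F x), fderiv ℝ F x (A k x)⟫_ℝ / ⟪x, x⟫_ℝ

theorem Aq_single (A : Fin 4 → E →L[ℝ] E) (k : Fin 4) (x : E) :
    Aq A (Pi.single k 1) x = A k x := by
  rw [Aq_apply]
  simp [Pi.single_apply]

namespace HIso

variable {A : Fin 4 → E →L[ℝ] E} {F : E → E}

theorem inner_F (H : HIso A F) (x : E) : ⟪F x, F x⟫_ℝ = ⟪x, x⟫_ℝ := by
  rw [real_inner_self_eq_norm_sq, real_inner_self_eq_norm_sq, H.norm]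

theorem F_ne (H : HIso A F) {x : E} (hx : x ≠ 0) : F x ≠ 0 := by
  intro h
  apply hx
  rw [← norm_eq_zero, ← H.norm, h, norm_zero]

theorem F_zero (H : HIso A F) : F 0 = 0 := by
  rw [← norm_eq_zero, H.norm, norm_zero]

theorem inner_Aj_Aq (C : Cliff A) (j : Fin 4) (p : Fin 4 → ℝ) (x : E) :
    ⟪A j x, Aq A p x⟫_ℝ = p j * ⟪x, x⟫_ℝ := by
  rw [Aq_apply, inner_sum]
  simp [real_inner_smul_right, C.inner_A]

theorem fderiv_A (C : Cliff A) (H : HIso A F) {x : E} (hx : x ≠ 0) (k : Fin 4) :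
    fderiv ℝ F x (A k x) = ∑ j, Gm A F x j k • A j (F x) := by
  obtain ⟨p, hp, -⟩ := H.hor x hx (Pi.single k 1)
  rw [Aq_single] at hp
  have hxx : ⟪x, x⟫_ℝ ≠ 0 := inner_self_ne_zero.mpr hx
  rw [hp, Aq_apply]
  apply Finset.sum_congr rfl
  intro j _
  congr 1
  rw [Gm, hp, inner_Aj_Aq C, H.inner_F, mul_div_assoc, div_self hxx, mul_one]

theorem fderiv_Aq (C : Cliff A) (H : HIso A F) {x : E} (hx : x ≠ 0) (q : Fin 4 → ℝ) :
    fderiv ℝ F x (Aq A q x) = Aq A (Gm A F x *ᵥ q) (F x) := by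
  rw [Aq_apply, map_sum, Aq_apply]
  simp only [map_smul, H.fderiv_A C hx, Finset.smul_sum, Matrix.mulVec, dotProduct,
    Finset.sum_smul, smul_smul]
  rw [Finset.sum_comm]
  apply Finset.sum_congr rfl
  intro j _
  apply Finset.sum_congr rfl
  intro k _
  rw [mul_comm]

theorem Aq_inj (C : Cliff A) {x : E} (hx : x ≠ 0) {p q : Fin 4 → ℝ}
    (h : Aq A p x = Aq A q x) : p = q := by
  have hxx : ⟪x, x⟫_ℝ ≠ 0 := inner_self_ne_zero.mpr hx
  ext j
  have h1 := inner_Aj_Aq C j p x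
  have h2 := inner_Aj_Aq C j q x
  rw [h, h2] at h1
  exact (mul_right_cancel₀ hxx h1).symm

theorem Gm_orth (C : Cliff A) (H : HIso A F) {x : E} (hx : x ≠ 0) :
    (Gm A F x)ᵀ * Gm A F x = 1 := by
  apply orth_of_nsq
  intro q
  obtain ⟨p, hp, hpq⟩ := H.hor x hx q
  rw [H.fderiv_Aq C hx] at hp
  rw [Aq_inj C (H.F_ne hx) hp, hpq]

end HIso

end Pool.Agent.Work.MP_fad7c9_gt
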