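import Mathlib
import Pool.Agent.Work.MP_fad7c9_gt.Bracket

set_option autoImplicit false

namespace Pool.Agent.Work.MP_fad7c9_gt

open scoped InnerProductSpace Topology Matrix
open Filter

variable {E : Type*} [NormedAddCommGroup E] [InnerProductSpace ℝ E]

/-- The full double sum over an antisymmetric matrix is twice the bivector. -/
theorem double_sum {A : Fin 4 → E →L[ℝ] E} (C : Cliff A) (c : Matrix (Fin 4) (Fin 4) ℝ)
    (hc : ∀ i j, c i j = -c j i) (x : E) :
    ∑ k, ∑ l, c k l • A k (A l x) = (2 : ℝ) • Biv A c x := by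
  have h00 : c 0 0 = 0 := by have := hc 0 0; linarith
  have h11 : c 1 1 = 0 := by have := hc 1 1; linarith
  have h22 : c 2 2 = 0 := by have := hc 2 2; linarith
  have h33 : c 3 3 = 0 := by have := hc 3 3; linarith
  simp only [Fin.sum_univ_four, h00, h11, h22, h33, hc 1 0, hc 2 0, hc 3 0, hc 2 1, hc 3 1,
    hc 3 2, C.s10, C.s20, C.s30, C.s21, C.s31, C.s32, Biv]
  module

namespace HIso

variable {A : Fin 4 → E →L[ℝ] E} {F : E → E}

theorem differentiableAt (H : HIso A F) {x : E} (hx : x ≠ 0) : DifferentiableAt ℝ F x :=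
  (H.smooth x hx).differentiableAt (by norm_num)

theorem differentiableAt_fderiv (H : HIso A F) {x : E} (hx : x ≠ 0) :
    DifferentiableAt ℝ (fderiv ℝ F) x :=
  ((H.smooth x hx).fderiv_right (m := 1) (by norm_num)).differentiableAt (by norm_num)

theorem differentiableAt_Gm (H : HIso A F) {x : E} (hx : x ≠ 0) (j k : Fin 4) :
    DifferentiableAt ℝ (fun y => Gm A F y j k) x := by
  have h1 : DifferentiableAt ℝ (fun y => A j (F y)) x :=
    (A j).differentiableAt.comp x (H.differentiableAt hx)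
  have h2 : DifferentiableAt ℝ (fun y => fderiv ℝ F y (A k y)) x :=
    (H.differentiableAt_fderiv hx).clm_apply (A k).differentiableAt
  have h3 : DifferentiableAt ℝ (fun y : E => ⟪y, y⟫_ℝ) x :=
    differentiableAt_id.inner ℝ differentiableAt_id
  have h4 : ⟪x, x⟫_ℝ ≠ 0 := inner_self_ne_zero.mpr hx
  show DifferentiableAt ℝ (fun y => ⟪A j (F y), fderiv ℝ F y (A k y)⟫_ℝ / ⟪y, y⟫_ℝ) x
  have h5 : DifferentiableAt ℝ (fun y : E => (⟪y, y⟫_ℝ)⁻¹) x := h3.inv h4
  simpa only [div_eq_mul_inv] using (h1.inner ℝ h2).fun_mul h5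

theorem continuousOn_Gm (H : HIso A F) (j k : Fin 4) :
    ContinuousOn (fun y => Gm A F y j k) {0}ᶜ :=
  fun _ hx => (H.differentiableAt_Gm hx j k).continuousAt.continuousWithinAt

/-- Differentiated horizontality. -/
theorem second_order (C : Cliff A) (H : HIso A F) {x : E} (hx : x ≠ 0) (k : Fin 4) (v : E) :
    fderiv ℝ (fderiv ℝ F) x v (A k x) + fderiv ℝ F x (A k v) =
      ∑ j, (Gm A F x j k • A j (fderiv ℝ F x v) +
        (fderiv ℝ (fun y => Gm A F y j k) x v) • A j (F x)) := by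
  have h1 : HasFDerivAt (fun y => fderiv ℝ F y (A k y))
      ((fderiv ℝ F x).comp (A k) + (fderiv ℝ (fderiv ℝ F) x).flip (A k x)) x :=
    (H.differentiableAt_fderiv hx).hasFDerivAt.clm_apply (A k).hasFDerivAt
  have h2 : HasFDerivAt (fun y => ∑ j, Gm A F y j k • A j (F y))
      (∑ j, (Gm A F x j k • (A j).comp (fderiv ℝ F x) +
        (fderiv ℝ (fun y => Gm A F y j k) x).smulRight (A j (F x)))) x := by
    apply HasFDerivAt.fun_sum
    intro j _
    have a1 := (H.differentiableAt_Gm hx j k).hasFDerivAt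
    have a2 : HasFDerivAt (fun y => A j (F y)) ((A j).comp (fderiv ℝ F x)) x :=
      (A j).hasFDerivAt.comp x (H.differentiableAt hx).hasFDerivAt
    exact a1.smul a2
  have h3 : (fun y => fderiv ℝ F y (A k y)) =ᶠ[𝓝 x] fun y => ∑ j, Gm A F y j k • A j (F y) := by
    filter_upwards [isOpen_ne.mem_nhds hx] with y hy
    exact H.fderiv_A C hy k
  have h4 := (h2.congr_of_eventuallyEq h3).unique h1
  have h5 := congrArg (fun L => L v) h4
  simp only [add_apply, ContinuousLinearMap.comp_apply,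
    ContinuousLinearMap.flip_apply, sum_apply,
    smul_apply, ContinuousLinearMap.smulRight_apply] at h5
  rw [add_comm, ← h5]

/-- The bracket relation. -/
theorem bracket (C : Cliff A) (H : HIso A F) {x : E} (hx : x ≠ 0)
    (c : Matrix (Fin 4) (Fin 4) ℝ) (hc : ∀ i j, c i j = -c j i) (p : Fin 4 → ℝ)
    (h : Biv A c x = Aq A p x) :
    ∃ μ : Fin 4 → ℝ, Biv A (Gm A F x * c * (Gm A F x)ᵀ) (F x) = Aq A μ (F x) := by
  set G := Gm A F x with hG
  set D := fderiv ℝ F x with hD
  have hsymm : ∀ v w, fderiv ℝ (fderiv ℝ F) x v w = fderiv ℝ (fderiv ℝ F) x w v := by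
    intro v w
    exact ((H.smooth x hx).isSymmSndFDerivAt (by simp)) v w
  -- the sum of second order terms vanishes
  have hzero : ∑ k, ∑ l, c k l • fderiv ℝ (fderiv ℝ F) x (A l x) (A k x) = 0 := by
    set v := ∑ k, ∑ l, c k l • fderiv ℝ (fderiv ℝ F) x (A l x) (A k x) with hv
    have h1 : v = -v := by
      conv_lhs => rw [hv, Finset.sum_comm]
      rw [hv, ← Finset.sum_neg_distrib]
      apply Finset.sum_congr rfl
      intro k _
      rw [← Finset.sum_neg_distrib]
      apply Finset.sum_congr rfl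
      intro l _
      rw [hc l k, hsymm, neg_smul]
    have h2 : (2 : ℝ) • v = 0 := by
      rw [two_smul]
      nth_rewrite 1 [h1]
      exact neg_add_cancel v
    exact (smul_eq_zero.mp h2).resolve_left two_ne_zero
  have hsum : ∑ k, ∑ l, c k l • D (A k (A l x)) =
      ∑ k, ∑ l, c k l • (∑ j, (G j k • A j (D (A l x)) +
        (fderiv ℝ (fun y => Gm A F y j k) x (A l x)) • A j (F x))) := by
    have : ∑ k, ∑ l, c k l • (fderiv ℝ (fderiv ℝ F) x (A l x) (A k x) + D (A k (A l x))) =
      ∑ k, ∑ l, c k l • (∑ j, (G j k • A j (D (A l x)) +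
        (fderiv ℝ (fun y => Gm A F y j k) x (A l x)) • A j (F x))) := by
      apply Finset.sum_congr rfl
      intro k _
      apply Finset.sum_congr rfl
      intro l _
      rw [H.second_order C hx k (A l x)]
    simp only [smul_add, Finset.sum_add_distrib] at this
    rw [hzero, zero_add] at this
    simp only [smul_add, Finset.sum_add_distrib]
    exact this
  -- left-hand side
  have hlhs : ∑ k, ∑ l, c k l • D (A k (A l x)) = (2 : ℝ) • Aq A (G *ᵥ p) (F x) := by
    have : ∑ k, ∑ l, c k l • D (A k (A l x)) = D (∑ k, ∑ l, c k l • A k (A l x)) := by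
      simp only [map_sum, map_smul]
    rw [this, double_sum C c hc, h, map_smul, hD, H.fderiv_Aq C hx]
  -- right-hand side
  set ν : Fin 4 → ℝ := fun j => ∑ k, ∑ l, c k l * fderiv ℝ (fun y => Gm A F y j k) x (A l x)
    with hν
  have hrhs : ∑ k, ∑ l, c k l • (∑ j, (G j k • A j (D (A l x)) +
        (fderiv ℝ (fun y => Gm A F y j k) x (A l x)) • A j (F x))) =
      (2 : ℝ) • Biv A (G * c * Gᵀ) (F x) + Aq A ν (F x) := by
    rw [← double_sum C _ (conj_antisymm G c hc), Aq_apply]
    have e1 : ∀ l, D (A l x) = ∑ i, G i l • A i (F x) := fun l => H.fderiv_A C hx l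
    simp only [e1, map_sum, map_smul, Finset.smul_sum, smul_add, Finset.sum_add_distrib, hν,
      Finset.sum_smul, smul_smul, Matrix.mul_apply, Matrix.transpose_apply, Finset.sum_mul]
    congr 1
    · -- reorder the fourfold sum
      have : ∀ (f : Fin 4 → Fin 4 → Fin 4 → Fin 4 → E),
          ∑ k, ∑ l, ∑ j, ∑ i, f k l j i = ∑ j, ∑ i, ∑ l, ∑ k, f k l j i := by
        intro f
        calc ∑ k, ∑ l, ∑ j, ∑ i, f k l j i = ∑ l, ∑ k, ∑ j, ∑ i, f k l j i := Finset.sum_comm
          _ = ∑ l, ∑ j, ∑ k, ∑ i, f k l j i := by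
              apply Finset.sum_congr rfl; intro l _; exact Finset.sum_comm
          _ = ∑ j, ∑ l, ∑ k, ∑ i, f k l j i := Finset.sum_comm
          _ = ∑ j, ∑ l, ∑ i, ∑ k, f k l j i := by
              apply Finset.sum_congr rfl; intro j _
              apply Finset.sum_congr rfl; intro l _; exact Finset.sum_comm
          _ = ∑ j, ∑ i, ∑ l, ∑ k, f k l j i := by
              apply Finset.sum_congr rfl; intro j _; exact Finset.sum_comm
      rw [this]
      apply Finset.sum_congr rfl; intro j _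
      apply Finset.sum_congr rfl; intro i _
      apply Finset.sum_congr rfl; intro l _
      apply Finset.sum_congr rfl; intro k _
      congr 1
      ring
    · rw [show (∑ k, ∑ l, ∑ j, (c k l * fderiv ℝ (fun y => Gm A F y j k) x (A l x)) • A j (F x)) =
        ∑ k, ∑ j, ∑ l, (c k l * fderiv ℝ (fun y => Gm A F y j k) x (A l x)) • A j (F x) from by
          apply Finset.sum_congr rfl; intro k _; exact Finset.sum_comm]
      exact Finset.sum_comm
  rw [hlhs, hrhs] at hsum
  refine ⟨G *ᵥ p - (1 / 2 : ℝ) • ν, ?_⟩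
  have h6 : Aq A (G *ᵥ p - (1 / 2 : ℝ) • ν) (F x) =
      Aq A (G *ᵥ p) (F x) - (1 / 2 : ℝ) • Aq A ν (F x) := by
    simp only [Aq_apply, Pi.sub_apply, Pi.smul_apply, smul_eq_mul, sub_smul,
      Finset.sum_sub_distrib, Finset.smul_sum, smul_smul]
  rw [h6]
  have h7 : (2 : ℝ) • Biv A (G * c * Gᵀ) (F x) = (2 : ℝ) • Aq A (G *ᵥ p) (F x) -
      Aq A ν (F x) := by rw [hsum]; abel
  have h8 : Biv A (G * c * Gᵀ) (F x) = (1 / 2 : ℝ) • ((2 : ℝ) • Biv A (G * c * Gᵀ) (F x)) := by
    rw [smul_smul]; norm_num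
  rw [h8, h7, smul_sub, smul_smul]
  norm_num

end HIso

end Pool.Agent.Work.MP_fad7c9_gt
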