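import Mathlib
import Pool.Agent.Work.MP_fad7c9_gt.Sign

set_option autoImplicit false

namespace Pool.Agent.Work.MP_fad7c9_gt

open scoped InnerProductSpace Topology Matrix
open Filter

variable {E : Type*} [NormedAddCommGroup E] [InnerProductSpace ℝ E]

/-- The quadratic form of the chirality. -/
noncomputable def sg (A : Fin 4 → E →L[ℝ] E) (x : E) : ℝ := ⟪om A x, x⟫_ℝ

/-- antisymmetric matrix with six given entries -/
def asym (v : Fin 6 → ℝ) : Matrix (Fin 4) (Fin 4) ℝ :=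
  !![0, v 0, v 1, v 2; -v 0, 0, v 3, v 4; -v 1, -v 3, 0, v 5; -v 2, -v 4, -v 5, 0]

theorem asym_antisymm (v : Fin 6 → ℝ) (i j : Fin 4) : asym v i j = -asym v j i := by
  fin_cases i <;> fin_cases j <;> simp [asym]

theorem Cliff.exists_kernel {A : Fin 4 → E →L[ℝ] E} (C : Cliff A)
    (hE : Module.finrank ℝ E = 8) {x : E} (hx : x ≠ 0) :
    ∃ (c : Matrix (Fin 4) (Fin 4) ℝ) (p : Fin 4 → ℝ), (∀ i j, c i j = -c j i) ∧
      csq c ≠ 0 ∧ Biv A c x = Aq A p x := by
  let L : ((Fin 6 → ℝ) × (Fin 4 → ℝ)) →ₗ[ℝ] E :=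
    { toFun := fun w => Biv A (asym w.1) x - Aq A w.2 x
      map_add' := by
        rintro ⟨v, p⟩ ⟨v', p'⟩
        simp only [Biv, asym, Aq_apply, Prod.mk_add_mk, Pi.add_apply, Fin.sum_univ_four,
          Matrix.of_apply, Matrix.cons_val', Matrix.cons_val]
        module
      map_smul' := by
        rintro a ⟨v, p⟩
        simp only [Biv, asym, Aq_apply, Prod.smul_mk, Pi.smul_apply, Fin.sum_univ_four,
          Matrix.of_apply, Matrix.cons_val', Matrix.cons_val, RingHom.id_apply, smul_eq_mul]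
        module }
  have hfin : FiniteDimensional ℝ E := Module.finite_of_finrank_pos (by omega)
  have hker : LinearMap.ker L ≠ ⊥ := by
    apply LinearMap.ker_ne_bot_of_finrank_lt
    rw [hE, Module.finrank_prod, Module.finrank_fin_fun, Module.finrank_fin_fun]
    norm_num
  obtain ⟨⟨v, p⟩, hv, hne⟩ := Submodule.exists_mem_ne_zero_of_ne_bot hker
  rw [LinearMap.mem_ker] at hv
  have hv' : Biv A (asym v) x = Aq A p x := sub_eq_zero.mp hv
  refine ⟨asym v, p, asym_antisymm v, ?_, hv'⟩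
  intro h0
  have hc : csq (asym v) = v 0 ^ 2 + v 1 ^ 2 + v 2 ^ 2 + v 3 ^ 2 + v 4 ^ 2 + v 5 ^ 2 := by
    simp [csq, asym]
  rw [hc] at h0
  have hv0 : v = 0 := by
    have h1 := sq_nonneg (v 0)
    have h2 := sq_nonneg (v 1)
    have h3 := sq_nonneg (v 2)
    have h4 := sq_nonneg (v 3)
    have h5 := sq_nonneg (v 4)
    have h6 := sq_nonneg (v 5)
    have z : ∀ a : ℝ, a ^ 2 = 0 → a = 0 := fun a ha => (pow_eq_zero_iff two_ne_zero).mp ha
    have e0 := z (v 0) (by linarith)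
    have e1 := z (v 1) (by linarith)
    have e2 := z (v 2) (by linarith)
    have e3 := z (v 3) (by linarith)
    have e4 := z (v 4) (by linarith)
    have e5 := z (v 5) (by linarith)
    ext i
    fin_cases i <;> assumption
  subst hv0
  have hB : Biv A (asym 0) x = 0 := by simp [Biv, asym]
  rw [hB] at hv'
  have hp : p = 0 := by
    apply HIso.Aq_inj C hx
    rw [← hv']
    simp [Aq_apply]
  exact hne (by rw [hp]; rfl)

theorem Cliff.abs_sg_le {A : Fin 4 → E →L[ℝ] E} (C : Cliff A) (x : E) :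
    |sg A x| ≤ ⟪x, x⟫_ℝ := by
  have h1 : ‖om A x‖ = ‖x‖ := by
    have : ⟪om A x, om A x⟫_ℝ = ⟪x, x⟫_ℝ := by rw [C.om_symm, C.om_sq]
    rw [real_inner_self_eq_norm_sq, real_inner_self_eq_norm_sq] at this
    exact (sq_eq_sq₀ (norm_nonneg _) (norm_nonneg _)).mp this
  have h2 := abs_real_inner_le_norm (om A x) x
  rw [h1, ← pow_two, ← real_inner_self_eq_norm_sq] at h2
  exact h2

theorem HIso.sg_eq {A : Fin 4 → E →L[ℝ] E} {F : E → E} (C : Cliff A) (H : HIso A F)
    (hE : Module.finrank ℝ E = 8) {x : E} (hx : x ≠ 0) :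
    sg A (F x) = (Gm A F x).det * sg A x := by
  obtain ⟨c, p, hc, hc0, hB⟩ := C.exists_kernel hE hx
  obtain ⟨μ, hμ⟩ := H.bracket C hx c hc p hB
  have h1 := C.kernel_relation c p x hB
  have h2 := C.kernel_relation _ μ (F x) hμ
  rw [csq_conj _ _ hc (H.Gm_orth C hx), Pf_conj _ _ hc, H.inner_F] at h2
  have h3 := det_sq_of_orth _ (H.Gm_orth C hx)
  set δ := (Gm A F x).det
  have hN : 0 < ⟪x, x⟫_ℝ := real_inner_self_pos.mpr hx
  have h4 := C.abs_sg_le x
  have h5 := C.abs_sg_le (F x)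
  rw [H.inner_F] at h5
  unfold sg at h4 h5 ⊢
  set N := ⟪x, x⟫_ℝ
  set s := ⟪om A x, x⟫_ℝ
  set s' := ⟪om A (F x), F x⟫_ℝ
  set P := Pf c
  set K := csq c
  -- eliminate `P`
  have h6 : (δ * s - s') * (N ^ 2 - δ * s * s') = 0 := by
    have e1 : K * (N * ((δ * s - s') * (N ^ 2 - δ * s * s'))) = 0 := by
      have : K * (N * ((δ * s - s') * (N ^ 2 - δ * s * s'))) =
        (δ * (N ^ 2 + s' ^ 2)) * (K * (s * N) - P * (N ^ 2 + s ^ 2)) -
        (N ^ 2 + s ^ 2) * (K * (s' * N) - δ * P * (N ^ 2 + s' ^ 2)) +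
        K * N * s * s' * (s - δ ^ 2 * s) := by ring
      rw [this, h1, h2, h3]
      ring
    rcases mul_eq_zero.mp e1 with h | h
    · exact absurd h hc0
    · rcases mul_eq_zero.mp h with h | h
      · exact absurd h hN.ne'
      · exact h
  rcases mul_eq_zero.mp h6 with h7 | h7
  · linarith
  · -- the extreme case
    have h8 : s ^ 2 ≤ N ^ 2 := sq_le_sq' (abs_le.mp h4).1 (abs_le.mp h4).2
    have h9 : s' ^ 2 ≤ N ^ 2 := sq_le_sq' (abs_le.mp h5).1 (abs_le.mp h5).2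
    have h10 : (s' - δ * s) ^ 2 = 0 := by
      apply le_antisymm _ (sq_nonneg _)
      have : (s' - δ * s) ^ 2 = s' ^ 2 + δ ^ 2 * s ^ 2 - 2 * (δ * s * s') := by ring
      rw [this, h3]
      linarith
    exact sub_eq_zero.mp ((pow_eq_zero_iff two_ne_zero).mp h10)

end Pool.Agent.Work.MP_fad7c9_gt
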