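import Mathlib
import Pool.Agent.Work.MP_fad7c9_gt.Split

set_option autoImplicit false

namespace Pool.Agent.Work.MP_fad7c9_gt

open scoped InnerProductSpace Topology Matrix
open Filter

variable {E : Type*} [NormedAddCommGroup E] [InnerProductSpace ℝ E]

/-- Positive and negative chirality parts. -/
noncomputable def Pp (A : Fin 4 → E →L[ℝ] E) : E →L[ℝ] E :=
  (1 / 2 : ℝ) • (ContinuousLinearMap.id ℝ E + om A)
noncomputable def Pm (A : Fin 4 → E →L[ℝ] E) : E →L[ℝ] E :=
  (1 / 2 : ℝ) • (ContinuousLinearMap.id ℝ E - om A)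

theorem Pp_apply (A : Fin 4 → E →L[ℝ] E) (x : E) : Pp A x = (1 / 2 : ℝ) • (x + om A x) := rfl
theorem Pm_apply (A : Fin 4 → E →L[ℝ] E) (x : E) : Pm A x = (1 / 2 : ℝ) • (x - om A x) := rfl

theorem Pp_add_Pm (A : Fin 4 → E →L[ℝ] E) (x : E) : Pp A x + Pm A x = x := by
  rw [Pp_apply, Pm_apply]
  module

theorem Pp_sub_Pm (A : Fin 4 → E →L[ℝ] E) (x : E) : Pp A x - Pm A x = om A x := by
  rw [Pp_apply, Pm_apply]
  module

namespace Cliff

variable {A : Fin 4 → E →L[ℝ] E}

theorem om_Pp (C : Cliff A) (x : E) : om A (Pp A x) = Pp A x := by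
  rw [Pp_apply, map_smul, map_add, C.om_sq, add_comm]

theorem om_Pm (C : Cliff A) (x : E) : om A (Pm A x) = -Pm A x := by
  rw [Pm_apply, map_smul, map_sub, C.om_sq]
  module

theorem Pp_of_pos (_ : Cliff A) {x : E} (hx : om A x = x) : Pp A x = x := by
  rw [Pp_apply, hx]; module

theorem Pm_of_neg (_ : Cliff A) {x : E} (hx : om A x = -x) : Pm A x = x := by
  rw [Pm_apply, hx]; module

theorem Pm_of_pos (_ : Cliff A) {x : E} (hx : om A x = x) : Pm A x = 0 := by
  rw [Pm_apply, hx]; module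

theorem Pp_of_neg (_ : Cliff A) {x : E} (hx : om A x = -x) : Pp A x = 0 := by
  rw [Pp_apply, hx]; module

theorem inner_pos_neg (C : Cliff A) {x y : E} (hx : om A x = x) (hy : om A y = -y) :
    ⟪x, y⟫_ℝ = 0 := by
  have h : ⟪om A x, y⟫_ℝ = ⟪x, om A y⟫_ℝ := C.om_symm x y
  rw [hx, hy, inner_neg_right] at h
  linarith

theorem Pp_inner (C : Cliff A) (x : E) :
    ⟪Pp A x, Pp A x⟫_ℝ = (⟪x, x⟫_ℝ + sg A x) / 2 := by
  rw [Pp_apply, real_inner_smul_left, real_inner_smul_right, inner_add_left, inner_add_right,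
    inner_add_right, real_inner_comm (om A x) x, C.om_symm x (om A x), C.om_sq, sg]
  ring

theorem Pm_inner (C : Cliff A) (x : E) :
    ⟪Pm A x, Pm A x⟫_ℝ = (⟪x, x⟫_ℝ - sg A x) / 2 := by
  rw [Pm_apply, real_inner_smul_left, real_inner_smul_right, inner_sub_left, inner_sub_right,
    inner_sub_right, real_inner_comm (om A x) x, C.om_symm x (om A x), C.om_sq, sg]
  ring

theorem om_Aq_pos (C : Cliff A) (q : Fin 4 → ℝ) {x : E} (hx : om A x = x) :
    om A (Aq A q x) = -Aq A q x := by rw [C.om_Aq, hx]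

theorem om_Aq_neg (C : Cliff A) (q : Fin 4 → ℝ) {x : E} (hx : om A x = -x) :
    om A (Aq A q x) = Aq A q x := by rw [C.om_Aq, hx, map_neg, neg_neg]

/-- The eigenspaces of the chirality. -/
def Vp (A : Fin 4 → E →L[ℝ] E) : Submodule ℝ E where
  carrier := {x | om A x = x}
  add_mem' := by
    intro a b ha hb
    show om A (a + b) = a + b
    rw [map_add, ha, hb]
  zero_mem' := map_zero _
  smul_mem' := by
    intro c a ha
    show om A (c • a) = c • a
    rw [map_smul, ha]

def Vm (A : Fin 4 → E →L[ℝ] E) : Submodule ℝ E where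
  carrier := {x | om A x = -x}
  add_mem' := by
    intro a b ha hb
    show om A (a + b) = -(a + b)
    rw [map_add, ha, hb, neg_add]
  zero_mem' := by show om A 0 = -0; simp
  smul_mem' := by
    intro c a ha
    show om A (c • a) = -(c • a)
    rw [map_smul, ha, smul_neg]

theorem isCompl (C : Cliff A) : IsCompl (Vp A) (Vm A) := by
  constructor
  · rw [Submodule.disjoint_def]
    intro x hx hy
    have h1 : om A x = x := hx
    have h2 : om A x = -x := hy
    rw [h1] at h2
    have h3 : (2 : ℝ) • x = 0 := by rw [two_smul]; nth_rewrite 2 [h2]; exact add_neg_cancel x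
    exact (smul_eq_zero.mp h3).resolve_left two_ne_zero
  · rw [codisjoint_iff, Submodule.eq_top_iff']
    intro x
    rw [Submodule.mem_sup]
    exact ⟨Pp A x, C.om_Pp x, Pm A x, C.om_Pm x, Pp_add_Pm A x⟩

theorem A_inj (C : Cliff A) (k : Fin 4) : Function.Injective (A k) := by
  intro x y h
  have := congrArg (A k) h
  rw [C.sq, C.sq] at this
  exact neg_injective this

theorem finrank_Vp_Vm (C : Cliff A) (hE : Module.finrank ℝ E = 8) :
    Module.finrank ℝ (Vp A) = 4 ∧ Module.finrank ℝ (Vm A) = 4 := by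
  have hfin : FiniteDimensional ℝ E := Module.finite_of_finrank_pos (by omega)
  have h1 := Submodule.finrank_add_eq_of_isCompl C.isCompl
  rw [hE] at h1
  have h2 : Module.finrank ℝ (Vp A) ≤ Module.finrank ℝ (Vm A) := by
    let L : Vp A →ₗ[ℝ] Vm A :=
      { toFun := fun x => ⟨A 0 x, by
          show om A (A 0 x) = -(A 0 x)
          rw [C.om_anti, show om A (x : E) = x from x.2]⟩
        map_add' := by intro x y; ext; simp
        map_smul' := by intro c x; ext; simp }
    apply LinearMap.finrank_le_finrank_of_injective (f := L)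
    intro x y h
    have : A 0 (x : E) = A 0 y := congrArg Subtype.val h
    exact Subtype.ext (C.A_inj 0 this)
  have h3 : Module.finrank ℝ (Vm A) ≤ Module.finrank ℝ (Vp A) := by
    let L : Vm A →ₗ[ℝ] Vp A :=
      { toFun := fun x => ⟨A 0 x, by
          show om A (A 0 x) = (A 0 x)
          rw [C.om_anti, show om A (x : E) = -x from x.2, map_neg, neg_neg]⟩
        map_add' := by intro x y; ext; simp
        map_smul' := by intro c x; ext; simp }
    apply LinearMap.finrank_le_finrank_of_injective (f := L)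
    intro x y h
    have : A 0 (x : E) = A 0 y := congrArg Subtype.val h
    exact Subtype.ext (C.A_inj 0 this)
  omega

theorem Aq_zero_of (C : Cliff A) {x : E} (hx : x ≠ 0) {q : Fin 4 → ℝ} (h : Aq A q x = 0) :
    q = 0 := by
  apply HIso.Aq_inj C hx
  rw [h]
  simp [Aq_apply]

theorem exists_Aq_neg (C : Cliff A) (hE : Module.finrank ℝ E = 8) {x : E} (hx : om A x = x)
    (hx0 : x ≠ 0) {y : E} (hy : om A y = -y) : ∃ q, Aq A q x = y := by
  have hfin : FiniteDimensional ℝ E := Module.finite_of_finrank_pos (by omega)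
  let L : (Fin 4 → ℝ) →ₗ[ℝ] Vm A :=
    { toFun := fun q => ⟨Aq A q x, C.om_Aq_pos q hx⟩
      map_add' := by
        intro p q; ext
        simp only [Aq_apply, Pi.add_apply, add_smul, Finset.sum_add_distrib, Submodule.coe_add]
      map_smul' := by
        intro c q; ext
        simp only [Aq_apply, Pi.smul_apply, smul_eq_mul, mul_smul, Finset.smul_sum,
          RingHom.id_apply, Submodule.coe_smul] }
  have hinj : Function.Injective L := by
    rw [← LinearMap.ker_eq_bot, LinearMap.ker_eq_bot']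
    intro q hq
    exact C.Aq_zero_of hx0 (congrArg Subtype.val hq)
  have hsurj : Function.Surjective L := by
    apply (LinearMap.injective_iff_surjective_of_finrank_eq_finrank _).mp hinj
    rw [(C.finrank_Vp_Vm hE).2, Module.finrank_fin_fun]
  obtain ⟨q, hq⟩ := hsurj ⟨y, hy⟩
  exact ⟨q, congrArg Subtype.val hq⟩

theorem exists_Aq_pos (C : Cliff A) (hE : Module.finrank ℝ E = 8) {x : E} (hx : om A x = -x)
    (hx0 : x ≠ 0) {y : E} (hy : om A y = y) : ∃ q, Aq A q x = y := by
  have hfin : FiniteDimensional ℝ E := Module.finite_of_finrank_pos (by omega)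
  let L : (Fin 4 → ℝ) →ₗ[ℝ] Vp A :=
    { toFun := fun q => ⟨Aq A q x, C.om_Aq_neg q hx⟩
      map_add' := by
        intro p q; ext
        simp only [Aq_apply, Pi.add_apply, add_smul, Finset.sum_add_distrib, Submodule.coe_add]
      map_smul' := by
        intro c q; ext
        simp only [Aq_apply, Pi.smul_apply, smul_eq_mul, mul_smul, Finset.smul_sum,
          RingHom.id_apply, Submodule.coe_smul] }
  have hinj : Function.Injective L := by
    rw [← LinearMap.ker_eq_bot, LinearMap.ker_eq_bot']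
    intro q hq
    exact C.Aq_zero_of hx0 (congrArg Subtype.val hq)
  have hsurj : Function.Surjective L := by
    apply (LinearMap.injective_iff_surjective_of_finrank_eq_finrank _).mp hinj
    rw [(C.finrank_Vp_Vm hE).1, Module.finrank_fin_fun]
  obtain ⟨q, hq⟩ := hsurj ⟨y, hy⟩
  exact ⟨q, congrArg Subtype.val hq⟩

/-- The horizontal gradient direction. -/
noncomputable def nu (A : Fin 4 → E →L[ℝ] E) (x : E) : E :=
  ⟪Pm A x, Pm A x⟫_ℝ • Pp A x - ⟪Pp A x, Pp A x⟫_ℝ • Pm A x

theorem nu_eq (C : Cliff A) (x : E) :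
    nu A x = (1 / 2 : ℝ) • (⟪x, x⟫_ℝ • om A x - sg A x • x) := by
  rw [nu, C.Pp_inner, C.Pm_inner, Pp_apply, Pm_apply]
  module

theorem exists_nu (C : Cliff A) (hE : Module.finrank ℝ E = 8) {x : E} (hx : Pp A x ≠ 0) :
    ∃ r, Aq A r x = nu A x := by
  obtain ⟨r, hr⟩ := C.exists_Aq_neg hE (C.om_Pp x) hx
    (y := -(⟪Pp A x, Pp A x⟫_ℝ • Pm A x)) (by rw [map_neg, map_smul, C.om_Pm]; simp)
  have hpos : ⟪Pp A x, Pp A x⟫_ℝ ≠ 0 := inner_self_ne_zero.mpr hx
  have h1 : nsq r = ⟪Pp A x, Pp A x⟫_ℝ * ⟪Pm A x, Pm A x⟫_ℝ := by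
    have := C.Aq_inner r (Pp A x)
    rw [hr, inner_neg_left, inner_neg_right, neg_neg, real_inner_smul_left,
      real_inner_smul_right] at this
    have h2 : (nsq r - ⟪Pp A x, Pp A x⟫_ℝ * ⟪Pm A x, Pm A x⟫_ℝ) * ⟪Pp A x, Pp A x⟫_ℝ = 0 := by
      linarith
    rcases mul_eq_zero.mp h2 with h | h
    · linarith
    · exact absurd h hpos
  have h2 : Aq A r (Pm A x) = ⟪Pm A x, Pm A x⟫_ℝ • Pp A x := by
    have h3 := C.Aq_sq r (Pp A x)
    rw [hr, map_neg, map_smul, h1, neg_inj, mul_smul] at h3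
    exact smul_right_injective E hpos h3
  refine ⟨r, ?_⟩
  conv_lhs => rw [← Pp_add_Pm A x]
  rw [map_add, hr, h2, nu]
  abel

theorem nu_coeff (C : Cliff A) {x : E} (hx : x ≠ 0) {r : Fin 4 → ℝ} (hr : Aq A r x = nu A x)
    (k : Fin 4) : r k = (1 / 2) * ⟪om A x, A k x⟫_ℝ := by
  have h1 := HIso.inner_Aj_Aq C k r x
  have h0 : ⟪A k x, om A x⟫_ℝ = ⟪om A x, A k x⟫_ℝ := real_inner_comm _ _
  have h0' : ⟪A k x, x⟫_ℝ = 0 := by rw [real_inner_comm]; exact C.inner_x_A k x
  rw [hr, C.nu_eq, real_inner_smul_right, inner_sub_right, real_inner_smul_right,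
    real_inner_smul_right, h0, h0'] at h1
  have hxx : ⟪x, x⟫_ℝ ≠ 0 := inner_self_ne_zero.mpr hx
  have h2 : (r k - (1 / 2) * ⟪om A x, A k x⟫_ℝ) * ⟪x, x⟫_ℝ = 0 := by linarith
  rcases mul_eq_zero.mp h2 with h | h
  · linarith
  · exact absurd h hxx

end Cliff

end Pool.Agent.Work.MP_fad7c9_gt
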