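import Mathlib
import Pool.Agent.Work.MP_fad7c9_gt.Chiral

set_option autoImplicit false

namespace Pool.Agent.Work.MP_fad7c9_gt

open scoped InnerProductSpace Topology Matrix
open Filter

variable {E : Type*} [NormedAddCommGroup E] [InnerProductSpace ℝ E]

namespace HIso

variable {A : Fin 4 → E →L[ℝ] E} {F : E → E}

theorem det_const (C : Cliff A) (H : HIso A F) (hE : Module.finrank ℝ E = 8) {x y : E}
    (hx : x ≠ 0) (hy : y ≠ 0) : (Gm A F x).det = (Gm A F y).det := by
  have hcont : ContinuousOn (fun z => (Gm A F z).det) {0}ᶜ := by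
    have h1 : ContinuousOn (fun z => Gm A F z) {0}ᶜ := by
      apply continuousOn_pi.mpr
      intro j
      apply continuousOn_pi.mpr
      intro k
      exact H.continuousOn_Gm j k
    have h2 : Continuous (fun M : Matrix (Fin 4) (Fin 4) ℝ => M.det) := continuous_id.matrix_det
    exact h2.comp_continuousOn h1
  have hrank : 1 < Module.rank ℝ E := by
    have h1 : Module.rank ℝ E = 8 := by
      have hfin : FiniteDimensional ℝ E := Module.finite_of_finrank_pos (by omega)
      rw [← Module.finrank_eq_rank, hE]; norm_num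
    rw [h1]; norm_num
  have hconn := (isConnected_compl_singleton_of_one_lt_rank hrank (0 : E)).isPreconnected
  have hval : ∀ z : E, z ≠ 0 → (Gm A F z).det = 1 ∨ (Gm A F z).det = -1 := fun z hz =>
    sq_eq_one_iff.mp (det_sq_of_orth _ (H.Gm_orth C hz))
  have himp : ∀ a b : E, a ≠ 0 → b ≠ 0 → (Gm A F a).det = -1 → (Gm A F b).det = 1 → False := by
    intro a b ha hb h1 h2
    have h3 := hconn.intermediate_value (a := a) (b := b) ha hb hcont
    have h4 : (0 : ℝ) ∈ Set.Icc (Gm A F a).det (Gm A F b).det := by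
      rw [h1, h2]; constructor <;> norm_num
    obtain ⟨z, hz, hz'⟩ := h3 h4
    simp only at hz'
    rcases hval z hz with h | h <;> rw [h] at hz' <;> norm_num at hz'
  rcases hval x hx with h1 | h1 <;> rcases hval y hy with h2 | h2
  · rw [h1, h2]
  · exact (himp y x hy hx h2 h1).elim
  · exact (himp x y hx hy h1 h2).elim
  · rw [h1, h2]

/-- Euler's relation. -/
theorem euler (H : HIso A F) {x : E} (hx : x ≠ 0) : fderiv ℝ F x x = F x := by
  have h1 : HasDerivAt (fun t : ℝ => F (t • x)) (fderiv ℝ F x x) 1 := by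
    have h2 : HasDerivAt (fun t : ℝ => t • x) x 1 := by
      simpa using (hasDerivAt_id (1 : ℝ)).smul_const x
    have h3 : HasFDerivAt F (fderiv ℝ F x) ((1 : ℝ) • x) := by
      rw [one_smul]; exact (H.differentiableAt hx).hasFDerivAt
    exact h3.comp_hasDerivAt 1 h2
  have h2 : HasDerivAt (fun t : ℝ => t • F x) (F x) 1 := by
    simpa using (hasDerivAt_id (1 : ℝ)).smul_const (F x)
  have h3 : (fun t : ℝ => F (t • x)) =ᶠ[𝓝 1] fun t => t • F x := by
    filter_upwards [lt_mem_nhds (show (0 : ℝ) < 1 by norm_num)] with t ht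
    exact H.homog t ht x
  exact h1.unique (h2.congr_of_eventuallyEq h3)

/-- The chirality is preserved when the determinant is one. -/
structure Pos (A : Fin 4 → E →L[ℝ] E) (F : E → E) : Prop where
  sg : ∀ x, sg A (F x) = sg A x

theorem pos_of_det (C : Cliff A) (H : HIso A F) (hE : Module.finrank ℝ E = 8)
    (hdet : ∀ x, x ≠ 0 → (Gm A F x).det = 1) : Pos A F := by
  constructor
  intro x
  by_cases hx : x = 0
  · subst hx; rw [H.F_zero]
  · rw [H.sg_eq C hE hx, hdet x hx, one_mul]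

theorem Pp_inner_F (C : Cliff A) (H : HIso A F) (P : Pos A F) (x : E) :
    ⟪Pp A (F x), Pp A (F x)⟫_ℝ = ⟪Pp A x, Pp A x⟫_ℝ := by
  rw [C.Pp_inner, C.Pp_inner, H.inner_F, P.sg]

theorem Pm_inner_F (C : Cliff A) (H : HIso A F) (P : Pos A F) (x : E) :
    ⟪Pm A (F x), Pm A (F x)⟫_ℝ = ⟪Pm A x, Pm A x⟫_ℝ := by
  rw [C.Pm_inner, C.Pm_inner, H.inner_F, P.sg]

theorem F_pos (C : Cliff A) (H : HIso A F) (P : Pos A F) {x : E} (hx : om A x = x) :
    om A (F x) = F x := by
  have h1 := H.Pm_inner_F C P x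
  rw [C.Pm_of_pos hx, inner_zero_left] at h1
  have h2 : Pm A (F x) = 0 := inner_self_eq_zero.mp h1
  have h3 := Pp_add_Pm A (F x)
  have h4 := Pp_sub_Pm A (F x)
  rw [h2, add_zero] at h3
  rw [h2, sub_zero] at h4
  rw [← h4, h3]

theorem F_neg (C : Cliff A) (H : HIso A F) (P : Pos A F) {x : E} (hx : om A x = -x) :
    om A (F x) = -F x := by
  have h1 := H.Pp_inner_F C P x
  rw [C.Pp_of_neg hx, inner_zero_left] at h1
  have h2 : Pp A (F x) = 0 := inner_self_eq_zero.mp h1
  have h3 := Pp_add_Pm A (F x)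
  have h4 := Pp_sub_Pm A (F x)
  rw [h2, zero_add] at h3
  rw [h2, zero_sub] at h4
  rw [← h4, h3]

/-- Preservation of the differential of the quadratic form. -/
theorem om_fderiv (C : Cliff A) (H : HIso A F) (P : Pos A F) {x : E} (hx : x ≠ 0) (v : E) :
    ⟪om A (F x), fderiv ℝ F x v⟫_ℝ = ⟪om A x, v⟫_ℝ := by
  have h1 : HasFDerivAt (fun y => ⟪om A (F y), F y⟫_ℝ)
      ((fderivInnerCLM ℝ (om A (F x), F x)).comp
        (((om A).comp (fderiv ℝ F x)).prod (fderiv ℝ F x))) x :=
    ((om A).hasFDerivAt.comp x (H.differentiableAt hx).hasFDerivAt).inner ℝ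
      (H.differentiableAt hx).hasFDerivAt
  have h2 : HasFDerivAt (fun y => ⟪om A y, y⟫_ℝ)
      ((fderivInnerCLM ℝ (om A x, x)).comp ((om A).prod (ContinuousLinearMap.id ℝ E))) x :=
    (om A).hasFDerivAt.inner ℝ (hasFDerivAt_id x)
  have h3 : (fun y => ⟪om A (F y), F y⟫_ℝ) = fun y => ⟪om A y, y⟫_ℝ := by
    ext y; exact P.sg y
  rw [h3] at h1
  have h4 := congrArg (fun L => L v) (h1.unique h2)
  simp only [ContinuousLinearMap.comp_apply, ContinuousLinearMap.prod_apply,
    fderivInnerCLM_apply, ContinuousLinearMap.id_apply] at h4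
  have e1 : ⟪om A (fderiv ℝ F x v), F x⟫_ℝ = ⟪om A (F x), fderiv ℝ F x v⟫_ℝ := by
    rw [C.om_symm, real_inner_comm]
  have e2 : ⟪om A v, x⟫_ℝ = ⟪om A x, v⟫_ℝ := by rw [C.om_symm, real_inner_comm]
  rw [e1, e2] at h4
  linarith

theorem fderiv_nu (C : Cliff A) (H : HIso A F) (hE : Module.finrank ℝ E = 8) (P : Pos A F)
    {x : E} (hx : Pp A x ≠ 0) : fderiv ℝ F x (Cliff.nu A x) = Cliff.nu A (F x) := by
  have hx0 : x ≠ 0 := by rintro rfl; exact hx (map_zero _)
  have hFx : Pp A (F x) ≠ 0 := by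
    intro h
    have := H.Pp_inner_F C P x
    rw [h, inner_zero_left] at this
    exact hx (inner_self_eq_zero.mp this.symm)
  obtain ⟨r, hr⟩ := C.exists_nu hE hx
  obtain ⟨r', hr'⟩ := C.exists_nu hE hFx
  have c1 := C.nu_coeff hx0 hr
  have c2 := C.nu_coeff (H.F_ne hx0) hr'
  rw [← hr, ← hr', H.fderiv_Aq C hx0]
  congr 1
  -- `Gᵀ r' = r`
  have h1 : (Gm A F x)ᵀ *ᵥ r' = r := by
    ext k
    have h2 := H.om_fderiv C P hx0 (A k x)
    rw [H.fderiv_A C hx0, inner_sum] at h2
    simp only [real_inner_smul_right] at h2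
    simp only [Matrix.mulVec, dotProduct, Matrix.transpose_apply]
    rw [c1 k, ← h2, Finset.mul_sum]
    apply Finset.sum_congr rfl
    intro j _
    rw [c2 j]; ring
  have h2 : Gm A F x * (Gm A F x)ᵀ = 1 := mul_eq_one_comm.mp (H.Gm_orth C hx0)
  have h3 := congrArg (fun w => Gm A F x *ᵥ w) h1
  simp only [Matrix.mulVec_mulVec, h2, Matrix.one_mulVec] at h3
  rw [h3]

/-- The differential in the radial directions of both chirality parts. -/
theorem fderiv_parts (C : Cliff A) (H : HIso A F) (hE : Module.finrank ℝ E = 8) (P : Pos A F)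
    {x : E} (hx : Pp A x ≠ 0) :
    fderiv ℝ F x (Pp A x) = Pp A (F x) ∧ fderiv ℝ F x (Pm A x) = Pm A (F x) := by
  have hx0 : x ≠ 0 := by rintro rfl; exact hx (map_zero _)
  have h1 := H.fderiv_nu C hE P hx
  have h2 := H.euler hx0
  rw [Cliff.nu, Cliff.nu, H.Pp_inner_F C P, H.Pm_inner_F C P, map_sub, map_smul, map_smul] at h1
  have h3 : fderiv ℝ F x (Pp A x) + fderiv ℝ F x (Pm A x) = Pp A (F x) + Pm A (F x) := by
    rw [← map_add, Pp_add_Pm, Pp_add_Pm, h2]
  have h4 : ⟪Pp A x, Pp A x⟫_ℝ + ⟪Pm A x, Pm A x⟫_ℝ = ⟪x, x⟫_ℝ := by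
    rw [C.Pp_inner, C.Pm_inner]; ring
  have hxx : ⟪x, x⟫_ℝ ≠ 0 := inner_self_ne_zero.mpr hx0
  set a := ⟪Pp A x, Pp A x⟫_ℝ
  set b := ⟪Pm A x, Pm A x⟫_ℝ
  set u := fderiv ℝ F x (Pp A x)
  set v := fderiv ℝ F x (Pm A x)
  set u' := Pp A (F x)
  set v' := Pm A (F x)
  have h5 : (a + b) • u = (a + b) • u' := by
    have e1 : (a + b) • u = (b • u - a • v) + a • (u + v) := by module
    have e2 : (a + b) • u' = (b • u' - a • v') + a • (u' + v') := by module
    rw [e1, e2, h1, h3]
  rw [h4] at h5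
  have h6 : u = u' := smul_right_injective E hxx h5
  refine ⟨h6, ?_⟩
  rw [h6] at h3
  exact add_left_cancel h3

/-- Additivity over the chirality decomposition. -/
theorem F_add (C : Cliff A) (H : HIso A F) (hE : Module.finrank ℝ E = 8) (P : Pos A F)
    {ξ η : E} (hξ : om A ξ = ξ) (hη : om A η = -η) (hξ0 : ξ ≠ 0) (hη0 : η ≠ 0) :
    F (ξ + η) = F ξ + F η := by
  have hPp : ∀ a b : ℝ, Pp A (a • ξ + b • η) = a • ξ := by
    intro a b
    rw [map_add, map_smul, map_smul, C.Pp_of_pos hξ, C.Pp_of_neg hη, smul_zero, add_zero]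
  have hPm : ∀ a b : ℝ, Pm A (a • ξ + b • η) = b • η := by
    intro a b
    rw [map_add, map_smul, map_smul, C.Pm_of_pos hξ, C.Pm_of_neg hη, smul_zero, zero_add]
  have hne1 : ∀ b : ℝ, ξ + b • η ≠ 0 := by
    intro b h
    have := hPp 1 b
    rw [one_smul, h, map_zero] at this
    exact hξ0 this.symm
  have hne2 : ∀ a : ℝ, a • ξ + η ≠ 0 := by
    intro a h
    have := hPm a 1
    rw [one_smul, h, map_zero] at this
    exact hη0 this.symm
  -- positive part
  have hp : Pp A (F (ξ + η)) = F ξ := by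
    set f : ℝ → E := fun b => Pp A (F (ξ + b • η)) with hf
    have hder : ∀ b : ℝ, HasDerivAt f (Pp A (fderiv ℝ F (ξ + b • η) η)) b := by
      intro b
      have h1 : HasDerivAt (fun b : ℝ => ξ + b • η) η b := by
        simpa using ((hasDerivAt_id b).smul_const η).const_add ξ
      have h2 := (H.differentiableAt (hne1 b)).hasFDerivAt.comp_hasDerivAt b h1
      exact (Pp A).hasFDerivAt.comp_hasDerivAt b h2
    have hzero : ∀ b : ℝ, 0 < b → Pp A (fderiv ℝ F (ξ + b • η) η) = 0 := by
      intro b hb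
      have hx : Pp A (ξ + b • η) ≠ 0 := by
        have := hPp 1 b
        rw [one_smul] at this
        rw [this]; exact hξ0
      have h1 := (H.fderiv_parts C hE P hx).2
      have h2 : Pm A (ξ + b • η) = b • η := by
        have := hPm 1 b
        rwa [one_smul] at this
      rw [h2, map_smul] at h1
      have h3 : b • Pp A (fderiv ℝ F (ξ + b • η) η) = 0 := by
        rw [← map_smul, h1]
        exact C.Pp_of_neg (C.om_Pm _)
      exact (smul_eq_zero.mp h3).resolve_left hb.ne'
    have hconst : ∀ b : ℝ, 0 < b → f b = f 1 := by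
      intro b hb
      refine isOpen_Ioi.is_const_of_deriv_eq_zero (s := Set.Ioi (0 : ℝ)) isPreconnected_Ioi ?_ ?_
        hb (by norm_num : (1 : ℝ) ∈ Set.Ioi (0 : ℝ))
      · intro b _
        exact (hder b).differentiableAt.differentiableWithinAt
      · intro b hb
        rw [(hder b).deriv]; exact hzero b hb
    have hlim : Tendsto f (𝓝[>] 0) (𝓝 (f 0)) :=
      (hder 0).continuousAt.tendsto.mono_left nhdsWithin_le_nhds
    have hlim' : Tendsto f (𝓝[>] 0) (𝓝 (f 1)) := by
      apply tendsto_const_nhds.congr'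
      filter_upwards [self_mem_nhdsWithin] with b hb
      exact (hconst b hb).symm
    have h1 := tendsto_nhds_unique hlim hlim'
    have h2 : f 0 = F ξ := by
      simp only [hf, zero_smul, add_zero]
      exact C.Pp_of_pos (H.F_pos C P hξ)
    have h3 : f 1 = Pp A (F (ξ + η)) := by simp only [hf, one_smul]
    rw [← h3, ← h1, h2]
  -- negative part
  have hm : Pm A (F (ξ + η)) = F η := by
    set f : ℝ → E := fun a => Pm A (F (a • ξ + η)) with hf
    have hder : ∀ a : ℝ, HasDerivAt f (Pm A (fderiv ℝ F (a • ξ + η) ξ)) a := by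
      intro a
      have h1 : HasDerivAt (fun a : ℝ => a • ξ + η) ξ a := by
        simpa using ((hasDerivAt_id a).smul_const ξ).add_const η
      have h2 := (H.differentiableAt (hne2 a)).hasFDerivAt.comp_hasDerivAt a h1
      exact (Pm A).hasFDerivAt.comp_hasDerivAt a h2
    have hzero : ∀ a : ℝ, 0 < a → Pm A (fderiv ℝ F (a • ξ + η) ξ) = 0 := by
      intro a ha
      have h2 : Pp A (a • ξ + η) = a • ξ := by
        have := hPp a 1
        rwa [one_smul] at this
      have hx : Pp A (a • ξ + η) ≠ 0 := by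
        rw [h2]; exact smul_ne_zero ha.ne' hξ0
      have h1 := (H.fderiv_parts C hE P hx).1
      rw [h2, map_smul] at h1
      have h3 : a • Pm A (fderiv ℝ F (a • ξ + η) ξ) = 0 := by
        rw [← map_smul, h1]
        exact C.Pm_of_pos (C.om_Pp _)
      exact (smul_eq_zero.mp h3).resolve_left ha.ne'
    have hconst : ∀ a : ℝ, 0 < a → f a = f 1 := by
      intro a ha
      refine isOpen_Ioi.is_const_of_deriv_eq_zero (s := Set.Ioi (0 : ℝ)) isPreconnected_Ioi ?_ ?_
        ha (by norm_num : (1 : ℝ) ∈ Set.Ioi (0 : ℝ))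
      · intro b _
        exact (hder b).differentiableAt.differentiableWithinAt
      · intro b hb
        rw [(hder b).deriv]; exact hzero b hb
    have hlim : Tendsto f (𝓝[>] 0) (𝓝 (f 0)) :=
      (hder 0).continuousAt.tendsto.mono_left nhdsWithin_le_nhds
    have hlim' : Tendsto f (𝓝[>] 0) (𝓝 (f 1)) := by
      apply tendsto_const_nhds.congr'
      filter_upwards [self_mem_nhdsWithin] with b hb
      exact (hconst b hb).symm
    have h1 := tendsto_nhds_unique hlim hlim'
    have h2 : f 0 = F η := by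
      simp only [hf, zero_smul, zero_add]
      exact C.Pm_of_neg (H.F_neg C P hη)
    have h3 : f 1 = Pm A (F (ξ + η)) := by simp only [hf, one_smul]
    rw [← h3, ← h1, h2]
  rw [← Pp_add_Pm A (F (ξ + η)), hp, hm]

end HIso

end Pool.Agent.Work.MP_fad7c9_gt
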