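import Mathlib
import Pool.Agent.Work.MP_fad7c9_gt.Linear

set_option autoImplicit false

namespace Pool.Agent.Work.MP_fad7c9_gt

open scoped InnerProductSpace Topology Matrix
open Filter

variable {E : Type*} [NormedAddCommGroup E] [InnerProductSpace ℝ E]

namespace HIso

variable {A : Fin 4 → E →L[ℝ] E} {F : E → E}

theorem add_ne (C : Cliff A) {ξ η : E} (hξ : om A ξ = ξ) (hη : om A η = -η) (hξ0 : ξ ≠ 0) :
    ξ + η ≠ 0 := by
  intro h
  have := congrArg (Pp A) h
  rw [map_add, map_zero, C.Pp_of_pos hξ, C.Pp_of_neg hη, add_zero] at this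
  exact hξ0 this

/-- differential at a point of mixed chirality, in positive directions -/
theorem fderiv_pos (C : Cliff A) (H : HIso A F) (hE : Module.finrank ℝ E = 8) (P : Pos A F)
    {ξ η v : E} (hξ : om A ξ = ξ) (hη : om A η = -η) (hξ0 : ξ ≠ 0) (hη0 : η ≠ 0)
    (hv : om A v = v) : fderiv ℝ F (ξ + η) v = fderiv ℝ F ξ v := by
  have hne := add_ne C hξ hη hξ0
  have h1 : HasDerivAt (fun t : ℝ => F ((ξ + t • v) + η)) (fderiv ℝ F (ξ + η) v) 0 := by
    have a1 : HasDerivAt (fun t : ℝ => (ξ + t • v) + η) v 0 := by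
      simpa using (((hasDerivAt_id (0 : ℝ)).smul_const v).const_add ξ).add_const η
    have a2 : HasFDerivAt F (fderiv ℝ F (ξ + η)) ((ξ + (0 : ℝ) • v) + η) := by
      rw [zero_smul, add_zero]; exact (H.differentiableAt hne).hasFDerivAt
    exact a2.comp_hasDerivAt (0 : ℝ) a1
  have h2 : HasDerivAt (fun t : ℝ => F (ξ + t • v) + F η) (fderiv ℝ F ξ v) 0 := by
    have a1 : HasDerivAt (fun t : ℝ => ξ + t • v) v 0 := by
      simpa using ((hasDerivAt_id (0 : ℝ)).smul_const v).const_add ξ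
    have a2 : HasFDerivAt F (fderiv ℝ F ξ) (ξ + (0 : ℝ) • v) := by
      rw [zero_smul, add_zero]; exact (H.differentiableAt hξ0).hasFDerivAt
    exact (a2.comp_hasDerivAt (0 : ℝ) a1).add_const _
  have h3 : (fun t : ℝ => F ((ξ + t • v) + η)) =ᶠ[𝓝 0] fun t => F (ξ + t • v) + F η := by
    have hcont : ContinuousAt (fun t : ℝ => ξ + t • v) 0 := by fun_prop
    have h0 : (fun t : ℝ => ξ + t • v) 0 ≠ 0 := by simpa using hξ0
    filter_upwards [hcont.eventually_ne h0] with t ht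
    apply H.F_add C hE P _ hη ht hη0
    rw [map_add, map_smul, hξ, hv]
  exact h1.unique (h2.congr_of_eventuallyEq h3)

theorem fderiv_neg (C : Cliff A) (H : HIso A F) (hE : Module.finrank ℝ E = 8) (P : Pos A F)
    {ξ η v : E} (hξ : om A ξ = ξ) (hη : om A η = -η) (hξ0 : ξ ≠ 0) (hη0 : η ≠ 0)
    (hv : om A v = -v) : fderiv ℝ F (ξ + η) v = fderiv ℝ F η v := by
  have hne := add_ne C hξ hη hξ0
  have h1 : HasDerivAt (fun t : ℝ => F (ξ + (η + t • v))) (fderiv ℝ F (ξ + η) v) 0 := by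
    have a1 : HasDerivAt (fun t : ℝ => ξ + (η + t • v)) v 0 := by
      simpa using (((hasDerivAt_id (0 : ℝ)).smul_const v).const_add η).const_add ξ
    have a2 : HasFDerivAt F (fderiv ℝ F (ξ + η)) (ξ + (η + (0 : ℝ) • v)) := by
      rw [zero_smul, add_zero]; exact (H.differentiableAt hne).hasFDerivAt
    exact a2.comp_hasDerivAt (0 : ℝ) a1
  have h2 : HasDerivAt (fun t : ℝ => F ξ + F (η + t • v)) (fderiv ℝ F η v) 0 := by
    have a1 : HasDerivAt (fun t : ℝ => η + t • v) v 0 := by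
      simpa using ((hasDerivAt_id (0 : ℝ)).smul_const v).const_add η
    have a2 : HasFDerivAt F (fderiv ℝ F η) (η + (0 : ℝ) • v) := by
      rw [zero_smul, add_zero]; exact (H.differentiableAt hη0).hasFDerivAt
    exact (a2.comp_hasDerivAt (0 : ℝ) a1).const_add _
  have h3 : (fun t : ℝ => F (ξ + (η + t • v))) =ᶠ[𝓝 0] fun t => F ξ + F (η + t • v) := by
    have hcont : ContinuousAt (fun t : ℝ => η + t • v) 0 := by fun_prop
    have h0 : (fun t : ℝ => η + t • v) 0 ≠ 0 := by simpa using hη0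
    filter_upwards [hcont.eventually_ne h0] with t ht
    apply H.F_add C hE P hξ _ hξ0 ht
    rw [map_add, map_smul, hη, hv]
    simp [smul_neg, add_comm]
  exact h1.unique (h2.congr_of_eventuallyEq h3)

/-- the differential of the positive part preserves positive vectors -/
theorem fderiv_mem_pos (C : Cliff A) (H : HIso A F) (P : Pos A F) {ξ v : E} (hξ : om A ξ = ξ)
    (hξ0 : ξ ≠ 0) (hv : om A v = v) : Pm A (fderiv ℝ F ξ v) = 0 := by
  have a1 : HasDerivAt (fun t : ℝ => ξ + t • v) v 0 := by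
    simpa using ((hasDerivAt_id (0 : ℝ)).smul_const v).const_add ξ
  have a2 : HasFDerivAt F (fderiv ℝ F ξ) (ξ + (0 : ℝ) • v) := by
    rw [zero_smul, add_zero]; exact (H.differentiableAt hξ0).hasFDerivAt
  have h1 := (Pm A).hasFDerivAt.comp_hasDerivAt (0 : ℝ) (a2.comp_hasDerivAt (0 : ℝ) a1)
  have h2 : ((Pm A) ∘ F ∘ fun t : ℝ => ξ + t • v) = fun _ => (0 : E) := by
    ext t
    simp only [Function.comp]
    apply C.Pm_of_pos
    apply H.F_pos C P
    rw [map_add, map_smul, hξ, hv]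
  have h3 : HasDerivAt (fun _ : ℝ => (0 : E)) 0 0 := hasDerivAt_const _ _
  rw [h2] at h1
  exact h1.unique h3

theorem fderiv_mem_neg (C : Cliff A) (H : HIso A F) (P : Pos A F) {η v : E} (hη : om A η = -η)
    (hη0 : η ≠ 0) (hv : om A v = -v) : Pp A (fderiv ℝ F η v) = 0 := by
  have a1 : HasDerivAt (fun t : ℝ => η + t • v) v 0 := by
    simpa using ((hasDerivAt_id (0 : ℝ)).smul_const v).const_add η
  have a2 : HasFDerivAt F (fderiv ℝ F η) (η + (0 : ℝ) • v) := by
    rw [zero_smul, add_zero]; exact (H.differentiableAt hη0).hasFDerivAt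
  have h1 := (Pp A).hasFDerivAt.comp_hasDerivAt (0 : ℝ) (a2.comp_hasDerivAt (0 : ℝ) a1)
  have h2 : ((Pp A) ∘ F ∘ fun t : ℝ => η + t • v) = fun _ => (0 : E) := by
    ext t
    simp only [Function.comp]
    apply C.Pp_of_neg
    apply H.F_neg C P
    rw [map_add, map_smul, hη, hv]
    simp [smul_neg, add_comm]
  have h3 : HasDerivAt (fun _ : ℝ => (0 : E)) 0 0 := hasDerivAt_const _ _
  rw [h2] at h1
  exact h1.unique h3

/-- the two component equations -/
theorem components (C : Cliff A) (H : HIso A F) (hE : Module.finrank ℝ E = 8) (P : Pos A F)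
    {ξ η : E} (hξ : om A ξ = ξ) (hη : om A η = -η) (hξ0 : ξ ≠ 0) (hη0 : η ≠ 0)
    (q : Fin 4 → ℝ) :
    fderiv ℝ F ξ (Aq A q η) = Aq A (Gm A F (ξ + η) *ᵥ q) (F η) ∧
    fderiv ℝ F η (Aq A q ξ) = Aq A (Gm A F (ξ + η) *ᵥ q) (F ξ) := by
  have hne := add_ne C hξ hη hξ0
  have h1 := H.fderiv_Aq C hne q
  rw [map_add (Aq A q), map_add (fderiv ℝ F (ξ + η)),
    H.fderiv_neg C hE P hξ hη hξ0 hη0 (C.om_Aq_pos q hξ),
    H.fderiv_pos C hE P hξ hη hξ0 hη0 (C.om_Aq_neg q hη), H.F_add C hE P hξ hη hξ0 hη0,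
    map_add] at h1
  set p := Gm A F (ξ + η) *ᵥ q
  -- h1 : DF η (Aq q ξ) + DF ξ (Aq q η) = Aq p (F ξ) + Aq p (F η)
  have e1 := H.fderiv_mem_pos C P hξ hξ0 (C.om_Aq_neg q hη)
  have e2 := H.fderiv_mem_neg C P hη hη0 (C.om_Aq_pos q hξ)
  have e3 : Pp A (Aq A p (F ξ)) = 0 := C.Pp_of_neg (C.om_Aq_pos p (H.F_pos C P hξ))
  have e4 : Pm A (Aq A p (F η)) = 0 := C.Pm_of_pos (C.om_Aq_neg p (H.F_neg C P hη))
  have f1 : Pp A (fderiv ℝ F ξ (Aq A q η)) = fderiv ℝ F ξ (Aq A q η) := by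
    have := Pp_add_Pm A (fderiv ℝ F ξ (Aq A q η))
    rwa [e1, add_zero] at this
  have f2 : Pm A (fderiv ℝ F η (Aq A q ξ)) = fderiv ℝ F η (Aq A q ξ) := by
    have := Pp_add_Pm A (fderiv ℝ F η (Aq A q ξ))
    rwa [e2, zero_add] at this
  have f3 : Pm A (Aq A p (F ξ)) = Aq A p (F ξ) := by
    have := Pp_add_Pm A (Aq A p (F ξ))
    rwa [e3, zero_add] at this
  have f4 : Pp A (Aq A p (F η)) = Aq A p (F η) := by
    have := Pp_add_Pm A (Aq A p (F η))
    rwa [e4, add_zero] at this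
  constructor
  · have := congrArg (Pp A) h1
    rw [map_add, map_add, e2, e3, f1, f4, zero_add, zero_add] at this
    exact this
  · have := congrArg (Pm A) h1
    rw [map_add, map_add, e1, e4, f2, f3, add_zero, add_zero] at this
    exact this

theorem Gm_eq_of_mulVec {M N : Matrix (Fin 4) (Fin 4) ℝ} (h : ∀ q, M *ᵥ q = N *ᵥ q) : M = N := by
  ext i j
  have := congrFun (h (Pi.single j 1)) i
  rw [Matrix.mulVec_single_one, Matrix.mulVec_single_one] at this
  exact this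

theorem Gm_add_pos (C : Cliff A) (H : HIso A F) (hE : Module.finrank ℝ E = 8) (P : Pos A F)
    {ξ η : E} (hξ : om A ξ = ξ) (hη : om A η = -η) (hξ0 : ξ ≠ 0) (hη0 : η ≠ 0) :
    Gm A F (ξ + η) = Gm A F ξ := by
  have hb : ∀ b : ℝ, 0 < b → Gm A F (ξ + b • η) = Gm A F (ξ + η) := by
    intro b hb
    apply Gm_eq_of_mulVec
    intro q
    have hη' : om A (b • η) = -(b • η) := by rw [map_smul, hη, smul_neg]
    have h1 := (H.components C hE P hξ hη hξ0 hη0 q).1
    have h2 := (H.components C hE P hξ hη' hξ0 (smul_ne_zero hb.ne' hη0) q).1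
    rw [map_smul, map_smul, H.homog b hb, map_smul, h1] at h2
    have h3 := smul_right_injective E hb.ne' h2
    exact (Aq_inj C (H.F_ne hη0) h3).symm
  have hlim : Tendsto (fun b : ℝ => Gm A F (ξ + b • η)) (𝓝[>] 0) (𝓝 (Gm A F ξ)) := by
    have h1 : Tendsto (fun b : ℝ => ξ + b • η) (𝓝 0) (𝓝 ξ) := by
      have : Continuous (fun b : ℝ => ξ + b • η) := by fun_prop
      simpa using this.tendsto 0
    apply Tendsto.mono_left _ nhdsWithin_le_nhds
    refine tendsto_pi_nhds.mpr fun j => tendsto_pi_nhds.mpr fun k => ?_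
    exact (H.differentiableAt_Gm hξ0 j k).continuousAt.tendsto.comp h1
  have hlim' : Tendsto (fun b : ℝ => Gm A F (ξ + b • η)) (𝓝[>] 0) (𝓝 (Gm A F (ξ + η))) := by
    apply tendsto_const_nhds.congr'
    filter_upwards [self_mem_nhdsWithin] with b hb'
    exact (hb b hb').symm
  exact tendsto_nhds_unique hlim' hlim

theorem Gm_add_neg (C : Cliff A) (H : HIso A F) (hE : Module.finrank ℝ E = 8) (P : Pos A F)
    {ξ η : E} (hξ : om A ξ = ξ) (hη : om A η = -η) (hξ0 : ξ ≠ 0) (hη0 : η ≠ 0) :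
    Gm A F (ξ + η) = Gm A F η := by
  have hb : ∀ b : ℝ, 0 < b → Gm A F (b • ξ + η) = Gm A F (ξ + η) := by
    intro b hb
    apply Gm_eq_of_mulVec
    intro q
    have hξ' : om A (b • ξ) = b • ξ := by rw [map_smul, hξ]
    have h1 := (H.components C hE P hξ hη hξ0 hη0 q).2
    have h2 := (H.components C hE P hξ' hη (smul_ne_zero hb.ne' hξ0) hη0 q).2
    rw [map_smul, map_smul, H.homog b hb, map_smul, h1] at h2
    have h3 := smul_right_injective E hb.ne' h2
    exact (Aq_inj C (H.F_ne hξ0) h3).symm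
  have hlim : Tendsto (fun b : ℝ => Gm A F (b • ξ + η)) (𝓝[>] 0) (𝓝 (Gm A F η)) := by
    have h1 : Tendsto (fun b : ℝ => b • ξ + η) (𝓝 0) (𝓝 η) := by
      have : Continuous (fun b : ℝ => b • ξ + η) := by fun_prop
      simpa using this.tendsto 0
    apply Tendsto.mono_left _ nhdsWithin_le_nhds
    refine tendsto_pi_nhds.mpr fun j => tendsto_pi_nhds.mpr fun k => ?_
    exact (H.differentiableAt_Gm hη0 j k).continuousAt.tendsto.comp h1
  have hlim' : Tendsto (fun b : ℝ => Gm A F (b • ξ + η)) (𝓝[>] 0) (𝓝 (Gm A F (ξ + η))) := by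
    apply tendsto_const_nhds.congr'
    filter_upwards [self_mem_nhdsWithin] with b hb'
    exact (hb b hb').symm
  exact tendsto_nhds_unique hlim' hlim

/-- Existence of nonzero vectors of both chiralities. -/
theorem exists_chiral (C : Cliff A) (hE : Module.finrank ℝ E = 8) :
    ∃ ξ η : E, om A ξ = ξ ∧ om A η = -η ∧ ξ ≠ 0 ∧ η ≠ 0 := by
  have hfin : FiniteDimensional ℝ E := Module.finite_of_finrank_pos (by omega)
  obtain ⟨h1, h2⟩ := C.finrank_Vp_Vm hE
  have n1 : Nontrivial (Cliff.Vp A) := Module.nontrivial_of_finrank_pos (R := ℝ) (by omega)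
  have n2 : Nontrivial (Cliff.Vm A) := Module.nontrivial_of_finrank_pos (R := ℝ) (by omega)
  obtain ⟨ξ, hξ⟩ := exists_ne (0 : Cliff.Vp A)
  obtain ⟨η, hη⟩ := exists_ne (0 : Cliff.Vm A)
  exact ⟨ξ, η, ξ.2, η.2, fun h => hξ (Subtype.ext h), fun h => hη (Subtype.ext h)⟩

/-- Rigidity in the orientation preserving case. -/
theorem linear_of_pos (C : Cliff A) (H : HIso A F) (hE : Module.finrank ℝ E = 8)
    (P : Pos A F) :
    ∃ (L : E →ₗ[ℝ] E) (G : Matrix (Fin 4) (Fin 4) ℝ), (∀ x, F x = L x) ∧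
      ∀ k x, L (A k x) = ∑ j, G j k • A j (L x) := by
  obtain ⟨ξ₀, η₀, hξ₀, hη₀, hξn, hηn⟩ := exists_chiral C hE
  set G := Gm A F (ξ₀ + η₀) with hG
  have hGpos : ∀ ξ, om A ξ = ξ → ξ ≠ 0 → Gm A F ξ = G := by
    intro ξ h1 h2
    rw [← H.Gm_add_pos C hE P h1 hη₀ h2 hηn, H.Gm_add_neg C hE P h1 hη₀ h2 hηn, hG,
      H.Gm_add_neg C hE P hξ₀ hη₀ hξn hηn]
  have hGneg : ∀ η, om A η = -η → η ≠ 0 → Gm A F η = G := by
    intro η h1 h2
    rw [← H.Gm_add_neg C hE P hξ₀ h1 hξn h2, H.Gm_add_pos C hE P hξ₀ h1 hξn h2, hG,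
      H.Gm_add_pos C hE P hξ₀ hη₀ hξn hηn]
  have hGsum : ∀ ξ η, om A ξ = ξ → om A η = -η → ξ ≠ 0 → η ≠ 0 → Gm A F (ξ + η) = G := by
    intro ξ η h1 h2 h3 h4
    rw [H.Gm_add_pos C hE P h1 h2 h3 h4, hGpos ξ h1 h3]
  -- formulas on the two chirality spaces
  have hpos : ∀ (q : Fin 4 → ℝ), F (Aq A q η₀) = Aq A (G *ᵥ q) (F η₀) := by
    intro q
    by_cases h0 : Aq A q η₀ = 0
    · have hq : q = 0 := C.Aq_zero_of hηn h0
      rw [h0, H.F_zero, hq]
      simp [Aq_apply]
    · have h1 := C.om_Aq_neg q hη₀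
      have h2 := (H.components C hE P h1 hη₀ h0 hηn q).1
      rw [H.euler h0, hGsum _ _ h1 hη₀ h0 hηn] at h2
      exact h2
  have hneg : ∀ (q : Fin 4 → ℝ), F (Aq A q ξ₀) = Aq A (G *ᵥ q) (F ξ₀) := by
    intro q
    by_cases h0 : Aq A q ξ₀ = 0
    · have hq : q = 0 := C.Aq_zero_of hξn h0
      rw [h0, H.F_zero, hq]
      simp [Aq_apply]
    · have h1 := C.om_Aq_pos q hξ₀
      have h2 := (H.components C hE P hξ₀ h1 hξn h0 q).2
      rw [H.euler h0, hGsum _ _ hξ₀ h1 hξn h0] at h2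
      exact h2
  have hsplit : ∀ ξ η, om A ξ = ξ → om A η = -η → F (ξ + η) = F ξ + F η := by
    intro ξ η h1 h2
    by_cases h3 : ξ = 0
    · rw [h3, H.F_zero, zero_add, zero_add]
    by_cases h4 : η = 0
    · rw [h4, H.F_zero, add_zero, add_zero]
    exact H.F_add C hE P h1 h2 h3 h4
  have hdec : ∀ x, ∃ p q, x = Aq A p η₀ + Aq A q ξ₀ := by
    intro x
    obtain ⟨p, hp⟩ := C.exists_Aq_pos hE hη₀ hηn (C.om_Pp x)
    obtain ⟨q, hq⟩ := C.exists_Aq_neg hE hξ₀ hξn (C.om_Pm x)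
    exact ⟨p, q, by rw [hp, hq, Pp_add_Pm]⟩
  have hform : ∀ p q, F (Aq A p η₀ + Aq A q ξ₀) = Aq A (G *ᵥ p) (F η₀) + Aq A (G *ᵥ q) (F ξ₀) := by
    intro p q
    rw [hsplit _ _ (C.om_Aq_neg p hη₀) (C.om_Aq_pos q hξ₀), hpos, hneg]
  have Aq_add : ∀ p q x, Aq A (p + q) x = Aq A p x + Aq A q x := by
    intro p q x
    simp only [Aq_apply, Pi.add_apply, add_smul, Finset.sum_add_distrib]
  have Aq_smul : ∀ (c : ℝ) p x, Aq A (c • p) x = c • Aq A p x := by
    intro c p x
    simp only [Aq_apply, Pi.smul_apply, smul_eq_mul, mul_smul, Finset.smul_sum]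
  let L : E →ₗ[ℝ] E :=
    { toFun := F
      map_add' := by
        intro x y
        obtain ⟨p, q, rfl⟩ := hdec x
        obtain ⟨p', q', rfl⟩ := hdec y
        have : Aq A p η₀ + Aq A q ξ₀ + (Aq A p' η₀ + Aq A q' ξ₀) =
          Aq A (p + p') η₀ + Aq A (q + q') ξ₀ := by rw [Aq_add, Aq_add]; abel
        rw [this, hform, hform, hform, Matrix.mulVec_add, Matrix.mulVec_add, Aq_add, Aq_add]
        abel
      map_smul' := by
        intro c x
        obtain ⟨p, q, rfl⟩ := hdec x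
        have : c • (Aq A p η₀ + Aq A q ξ₀) = Aq A (c • p) η₀ + Aq A (c • q) ξ₀ := by
          rw [Aq_smul, Aq_smul, smul_add]
        rw [this, hform, hform, Matrix.mulVec_smul, Matrix.mulVec_smul, Aq_smul, Aq_smul,
          RingHom.id_apply, smul_add] }
  refine ⟨L, G, fun x => rfl, ?_⟩
  have hL : ∀ x, F x = L x := fun x => rfl
  have hfd : ∀ x, x ≠ 0 → ∀ v, fderiv ℝ F x v = L v := by
    intro x hx v
    have h1 : HasDerivAt (fun t : ℝ => F (x + t • v)) (fderiv ℝ F x v) 0 := by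
      have a1 : HasDerivAt (fun t : ℝ => x + t • v) v 0 := by
        simpa using ((hasDerivAt_id (0 : ℝ)).smul_const v).const_add x
      have a2 : HasFDerivAt F (fderiv ℝ F x) (x + (0 : ℝ) • v) := by
        rw [zero_smul, add_zero]; exact (H.differentiableAt hx).hasFDerivAt
      exact a2.comp_hasDerivAt (0 : ℝ) a1
    have h2 : HasDerivAt (fun t : ℝ => L x + t • L v) (L v) 0 := by
      simpa using ((hasDerivAt_id (0 : ℝ)).smul_const (L v)).const_add (L x)
    have h3 : (fun t : ℝ => F (x + t • v)) = fun t => L x + t • L v := by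
      ext t
      rw [hL, map_add, map_smul]
    rw [h3] at h1
    exact h1.unique h2
  have key : ∀ k x, x ≠ 0 → Gm A F x = G → L (A k x) = ∑ j, G j k • A j (L x) := by
    intro k x hx hGx
    rw [← hfd x hx, H.fderiv_A C hx, hGx]
    rfl
  intro k x
  -- split into chiralities
  have kp : L (A k (Pp A x)) = ∑ j, G j k • A j (L (Pp A x)) := by
    by_cases h : Pp A x = 0
    · simp [h]
    · exact key k _ h (hGpos _ (C.om_Pp x) h)
  have km : L (A k (Pm A x)) = ∑ j, G j k • A j (L (Pm A x)) := by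
    by_cases h : Pm A x = 0
    · simp [h]
    · exact key k _ h (hGneg _ (C.om_Pm x) h)
  have : L (A k (Pp A x)) + L (A k (Pm A x)) =
      (∑ j, G j k • A j (L (Pp A x))) + ∑ j, G j k • A j (L (Pm A x)) := by rw [kp, km]
  rw [← map_add, ← map_add, Pp_add_Pm, ← Finset.sum_add_distrib] at this
  rw [this]
  apply Finset.sum_congr rfl
  intro j _
  rw [← smul_add, ← map_add, ← map_add, Pp_add_Pm]

/-- Composition with `A 0`. -/
theorem comp_A0 (C : Cliff A) (H : HIso A F) : HIso A (fun x => A 0 (F x)) := by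
  refine ⟨?_, ?_, ?_, ?_⟩
  · intro x hx
    exact (A 0).contDiff.contDiffAt.comp x (H.smooth x hx)
  · intro t ht x
    simp only [H.homog t ht, map_smul]
  · intro x
    have h1 := C.inner_A_self 0 (F x)
    rw [real_inner_self_eq_norm_sq, real_inner_self_eq_norm_sq] at h1
    rw [(sq_eq_sq₀ (norm_nonneg _) (norm_nonneg _)).mp h1, H.norm]
  · intro x hx q
    obtain ⟨p, hp, hpq⟩ := H.hor x hx q
    refine ⟨![p 0, -p 1, -p 2, -p 3], ?_, ?_⟩
    · have h1 : fderiv ℝ (fun x => A 0 (F x)) x = (A 0).comp (fderiv ℝ F x) :=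
        ((A 0).hasFDerivAt.comp x (H.differentiableAt hx).hasFDerivAt).fderiv
      rw [h1, ContinuousLinearMap.comp_apply, hp]
      simp only [Aq_apply, Fin.sum_univ_four, map_add, map_smul, Matrix.cons_val, C.s10, C.s20,
        C.s30]
      module
    · rw [← hpq]
      simp [nsq, Fin.sum_univ_four]

/-- Rigidity: every such `F` is linear and normalises the span of the `A k`. -/
theorem linear (C : Cliff A) (H : HIso A F) (hE : Module.finrank ℝ E = 8) :
    ∃ (L : E →ₗ[ℝ] E) (G : Matrix (Fin 4) (Fin 4) ℝ), (∀ x, F x = L x) ∧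
      ∀ k x, L (A k x) = ∑ j, G j k • A j (L x) := by
  obtain ⟨ξ₀, η₀, hξ₀, hη₀, hξn, hηn⟩ := exists_chiral C hE
  rcases sq_eq_one_iff.mp (det_sq_of_orth _ (H.Gm_orth C hξn)) with hd | hd
  · exact H.linear_of_pos C hE (H.pos_of_det C hE fun x hx => by
      rw [H.det_const C hE hx hξn, hd])
  · have H' := H.comp_A0 C
    have hP : Pos A (fun x => A 0 (F x)) := by
      constructor
      intro x
      by_cases hx : x = 0
      · subst hx
        simp [H.F_zero]
      · have h1 := C.om_inner_Aq (Pi.single 0 1) (F x)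
        rw [Aq_single] at h1
        have h2 : nsq (Pi.single (0 : Fin 4) (1 : ℝ)) = 1 := by
          simp [nsq, Fin.sum_univ_four]
        rw [h2, one_mul] at h1
        have h3 := H.sg_eq C hE hx
        rw [H.det_const C hE hx hξn, hd] at h3
        unfold sg at h3 ⊢
        rw [h1, h3]; ring
    obtain ⟨L', G', h1, h2⟩ := H'.linear_of_pos C hE hP
    refine ⟨-((A 0 : E →ₗ[ℝ] E).comp L'), fun j k => if j = 0 then G' j k else -G' j k, ?_, ?_⟩
    · intro x
      have := h1 x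
      rw [LinearMap.neg_apply, LinearMap.comp_apply, ← this]
      simp [C.sq]
    · intro k x
      simp only [LinearMap.neg_apply, LinearMap.comp_apply, ContinuousLinearMap.coe_coe, h2,
        Fin.sum_univ_four, map_add, map_smul, map_neg, C.s10, C.s20, C.s30]
      simp
      module

end HIso

end Pool.Agent.Work.MP_fad7c9_gt
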