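import Mathlib
import Pool.Agent.Work.MP_fad7c9_gt.Rigid

set_option autoImplicit false

namespace Pool.Agent.Work.MP_fad7c9_gt

open scoped InnerProductSpace Topology Matrix Quaternion
open Filter

/-! ### Quaternionic algebra -/

def qI : ℍ[ℝ] := ⟨0, 1, 0, 0⟩
def qJ : ℍ[ℝ] := ⟨0, 0, 1, 0⟩
def qK : ℍ[ℝ] := ⟨0, 0, 0, 1⟩

theorem qI_mul_qI : qI * qI = -1 := by ext <;> simp [qI]
theorem qJ_mul_qJ : qJ * qJ = -1 := by ext <;> simp [qJ]
theorem qK_mul_qK : qK * qK = -1 := by ext <;> simp [qK]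
theorem qI_mul_qJ : qI * qJ = qK := by ext <;> simp [qI, qJ, qK]
theorem qJ_mul_qI : qJ * qI = -qK := by ext <;> simp [qI, qJ, qK]
theorem qJ_mul_qK : qJ * qK = qI := by ext <;> simp [qI, qJ, qK]
theorem qK_mul_qJ : qK * qJ = -qI := by ext <;> simp [qI, qJ, qK]
theorem qK_mul_qI : qK * qI = qJ := by ext <;> simp [qI, qJ, qK]
theorem qI_mul_qK : qI * qK = -qJ := by ext <;> simp [qI, qJ, qK]

theorem q_decomp (q : ℍ[ℝ]) : q = q.re • (1 : ℍ[ℝ]) + q.imI • qI + q.imJ • qJ + q.imK • qK := by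
  ext <;> simp [qI, qJ, qK]

/-- A unital multiplicative linear self-map of the quaternions is inner. -/
theorem exists_inner (θ : ℍ[ℝ] →ₗ[ℝ] ℍ[ℝ]) (h1 : θ 1 = 1) (hm : ∀ p q, θ (p * q) = θ p * θ q) :
    ∃ r : ℍ[ℝ], r ≠ 0 ∧ ∀ q, θ q * r = r * q := by
  set a := θ qI with ha
  set b := θ qJ with hb
  set c := θ qK with hc
  have aa : a * a = -1 := by rw [ha, ← hm, qI_mul_qI, map_neg, h1]
  have bb : b * b = -1 := by rw [hb, ← hm, qJ_mul_qJ, map_neg, h1]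
  have cc : c * c = -1 := by rw [hc, ← hm, qK_mul_qK, map_neg, h1]
  have ab : a * b = c := by rw [ha, hb, hc, ← hm, qI_mul_qJ]
  have ba : b * a = -c := by rw [ha, hb, hc, ← hm, qJ_mul_qI, map_neg]
  have bc : b * c = a := by rw [ha, hb, hc, ← hm, qJ_mul_qK]
  have cb : c * b = -a := by rw [ha, hb, hc, ← hm, qK_mul_qJ, map_neg]
  have ca : c * a = b := by rw [ha, hb, hc, ← hm, qK_mul_qI]
  have ac : a * c = -b := by rw [ha, hb, hc, ← hm, qI_mul_qK, map_neg]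
  let r : ℍ[ℝ] → ℍ[ℝ] := fun x => x - a * (x * qI) - b * (x * qJ) - c * (x * qK)
  have hrI : ∀ x, a * r x = r x * qI := by
    intro x
    simp only [r, mul_sub, sub_mul, mul_assoc, qI_mul_qI, qJ_mul_qI, qK_mul_qI, mul_neg, mul_one]
    rw [← mul_assoc a a, ← mul_assoc a b, ← mul_assoc a c, aa, ab, ac]
    noncomm_ring
  have hrJ : ∀ x, b * r x = r x * qJ := by
    intro x
    simp only [r, mul_sub, sub_mul, mul_assoc, qI_mul_qJ, qJ_mul_qJ, qK_mul_qJ, mul_neg, mul_one]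
    rw [← mul_assoc b a, ← mul_assoc b b, ← mul_assoc b c, ba, bb, bc]
    noncomm_ring
  have hrK : ∀ x, c * r x = r x * qK := by
    intro x
    simp only [r, mul_sub, sub_mul, mul_assoc, qI_mul_qK, qJ_mul_qK, qK_mul_qK, mul_neg, mul_one]
    rw [← mul_assoc c a, ← mul_assoc c b, ← mul_assoc c c, ca, cb, cc]
    noncomm_ring
  have hsum : r 1 - r qI * qI - r qJ * qJ - r qK * qK = 4 := by
    simp only [r, sub_mul, mul_assoc, one_mul, qI_mul_qI, qJ_mul_qI, qK_mul_qI, qI_mul_qJ,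
      qJ_mul_qJ, qK_mul_qJ, qI_mul_qK, qJ_mul_qK, qK_mul_qK, mul_neg, mul_one, neg_mul]
    noncomm_ring
    rw [zsmul_eq_mul, mul_one]
    norm_num
  have hex : ∃ x, r x ≠ 0 := by
    by_contra hno
    push Not at hno
    rw [hno, hno, hno, hno] at hsum
    have h4 := congrArg QuaternionAlgebra.re hsum
    simp only [zero_mul, sub_zero] at h4
    have h5 : ((4 : ℍ[ℝ])).re = 4 := rfl
    have h6 : ((0 : ℍ[ℝ])).re = 0 := rfl
    rw [h5, h6] at h4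
    norm_num at h4
  obtain ⟨x, hx⟩ := hex
  refine ⟨r x, hx, ?_⟩
  intro q
  conv_lhs => rw [q_decomp q]
  conv_rhs => rw [q_decomp q]
  simp only [map_add, map_smul, h1, add_mul, mul_add, smul_mul_assoc, mul_smul_comm, one_mul,
    mul_one, ← ha, ← hb, ← hc, hrI, hrJ, hrK]

theorem quat_classify (α β g : ℍ[ℝ] →ₗ[ℝ] ℍ[ℝ]) (hα : ∀ x, ‖α x‖ = ‖x‖) (hg : ∀ q, ‖g q‖ = ‖q‖)
    (h1 : ∀ q x, β (q * x) = g q * α x) (h2 : ∀ q y, α (star q * y) = star (g q) * β y) :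
    ∃ a b s : ℍ[ℝ], ‖a‖ = 1 ∧ ‖b‖ = 1 ∧ ‖s‖ = 1 ∧ (∀ x, α x = a * x * s) ∧
      ∀ y, β y = b * y * s := by
  have hu : ‖g 1‖ = 1 := by rw [hg, norm_one]
  have huu : star (g 1) * g 1 = 1 := by
    rw [Quaternion.star_mul_self, Quaternion.normSq_eq_norm_mul_self, hu]
    simp
  let θ : ℍ[ℝ] →ₗ[ℝ] ℍ[ℝ] :=
    { toFun := fun q => star (g (star q)) * g 1
      map_add' := by
        intro p q
        simp only [star_add, map_add, add_mul]
      map_smul' := by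
        intro t q
        simp only [Quaternion.star_smul, map_smul, smul_mul_assoc, RingHom.id_apply] }
  have hθ : ∀ q y, α (q * y) = θ q * α y := by
    intro q y
    have e1 := h2 (star q) y
    have e2 := h1 1 y
    rw [one_mul] at e2
    rw [star_star] at e1
    rw [e1, e2, ← mul_assoc]
    rfl
  have hα1 : α 1 ≠ 0 := by
    rw [← norm_ne_zero_iff, hα, norm_one]; exact one_ne_zero
  have t1 : θ 1 = 1 := by
    show star (g (star 1)) * g 1 = 1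
    rw [star_one, huu]
  have tm : ∀ p q, θ (p * q) = θ p * θ q := by
    intro p q
    apply mul_right_cancel₀ hα1
    rw [← hθ, mul_assoc (θ p), ← hθ q, ← hθ, mul_assoc]
  obtain ⟨r, hr0, hr⟩ := exists_inner θ t1 tm
  have hrn : ‖r‖ ≠ 0 := norm_ne_zero_iff.mpr hr0
  set a : ℍ[ℝ] := ‖r‖⁻¹ • r with ha
  have han : ‖a‖ = 1 := by rw [ha, norm_smul, norm_inv, norm_norm, inv_mul_cancel₀ hrn]
  have ha0 : a ≠ 0 := norm_ne_zero_iff.mp (by rw [han]; exact one_ne_zero)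
  have hra : ∀ q, θ q * a = a * q := by
    intro q
    rw [ha, mul_smul_comm, hr, smul_mul_assoc]
  have hθa : ∀ q, θ q = a * q * a⁻¹ := by
    intro q
    rw [← hra, mul_assoc, mul_inv_cancel₀ ha0, mul_one]
  have hαx : ∀ x, α x = a * x * (a⁻¹ * α 1) := by
    intro x
    have := hθ x 1
    rw [mul_one, hθa] at this
    rw [this, mul_assoc (a * x)]
  refine ⟨a, g 1 * a, a⁻¹ * α 1, han, ?_, ?_, hαx, ?_⟩
  · rw [norm_mul, hu, han, one_mul]
  · rw [norm_mul, norm_inv, han, inv_one, one_mul, hα, norm_one]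
  · intro y
    have e2 := h1 1 y
    rw [one_mul] at e2
    rw [e2, hαx]
    simp only [mul_assoc]

/-! ### Quaternionic coordinates -/

variable {E : Type*} [NormedAddCommGroup E] [InnerProductSpace ℝ E]

/-- `q.re • A 0 + q.imI • A 1 + q.imJ • A 2 + q.imK • A 3`. -/
noncomputable def AQ (A : Fin 4 → E →L[ℝ] E) (q : ℍ[ℝ]) : E →L[ℝ] E :=
  Aq A ![q.re, q.imI, q.imJ, q.imK]

theorem AQ_apply (A : Fin 4 → E →L[ℝ] E) (q : ℍ[ℝ]) (x : E) :
    AQ A q x = q.re • A 0 x + q.imI • A 1 x + q.imJ • A 2 x + q.imK • A 3 x := by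
  simp [AQ, Aq_apply, Fin.sum_univ_four]

theorem AQ_add (A : Fin 4 → E →L[ℝ] E) (p q : ℍ[ℝ]) (x : E) :
    AQ A (p + q) x = AQ A p x + AQ A q x := by
  simp only [AQ_apply, Quaternion.re_add, Quaternion.imI_add, Quaternion.imJ_add,
    Quaternion.imK_add]
  module

theorem AQ_smul (A : Fin 4 → E →L[ℝ] E) (t : ℝ) (q : ℍ[ℝ]) (x : E) :
    AQ A (t • q) x = t • AQ A q x := by
  simp only [AQ_apply, Quaternion.re_smul, Quaternion.imI_smul, Quaternion.imJ_smul,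
    Quaternion.imK_smul, smul_eq_mul]
  module

theorem nsq_quat (q : ℍ[ℝ]) : nsq ![q.re, q.imI, q.imJ, q.imK] = ‖q‖ ^ 2 := by
  rw [pow_two, ← Quaternion.normSq_eq_norm_mul_self, Quaternion.normSq_def']
  simp [nsq, Fin.sum_univ_four]

/-- Quaternionic coordinates. -/
noncomputable def Ul (A : Fin 4 → E →L[ℝ] E) (ξ : E) : (ℍ[ℝ] × ℍ[ℝ]) →ₗ[ℝ] E where
  toFun z := -(A 0 (AQ A z.1 ξ)) + AQ A z.2 ξ
  map_add' := by
    intro z w
    simp only [Prod.fst_add, Prod.snd_add, AQ_add, map_add]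
    module
  map_smul' := by
    intro t z
    simp only [Prod.smul_fst, Prod.smul_snd, AQ_smul, map_smul, RingHom.id_apply]
    module

theorem Ul_apply (A : Fin 4 → E →L[ℝ] E) (ξ : E) (x y : ℍ[ℝ]) :
    Ul A ξ (x, y) = -(A 0 (AQ A x ξ)) + AQ A y ξ := rfl

namespace Cliff

variable {A : Fin 4 → E →L[ℝ] E}

theorem rel12 (C : Cliff A) {ξ : E} (hξ : om A ξ = ξ) : A 1 (A 2 ξ) = -A 0 (A 3 ξ) := by
  have h : A 0 (A 1 (A 2 (A 3 (A 3 ξ)))) = -A 3 ξ := by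
    have := C.om_anti 3 ξ
    rw [hξ] at this
    exact this
  rw [C.sq, map_neg, map_neg, map_neg, neg_inj] at h
  have h2 := congrArg (A 0) h
  rw [C.sq] at h2
  rw [← h2, neg_neg]

theorem rel13 (C : Cliff A) {ξ : E} (hξ : om A ξ = ξ) : A 1 (A 3 ξ) = A 0 (A 2 ξ) := by
  have h : A 0 (A 1 (A 2 (A 3 (A 2 ξ)))) = -A 2 ξ := by
    have := C.om_anti 2 ξ
    rw [hξ] at this
    exact this
  rw [C.s32, map_neg, C.sq, neg_neg] at h
  have h2 := congrArg (A 0) h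
  rw [C.sq, map_neg, neg_inj] at h2
  exact h2

theorem rel23 (C : Cliff A) {ξ : E} (hξ : om A ξ = ξ) : A 2 (A 3 ξ) = -A 0 (A 1 ξ) := by
  have h : A 0 (A 1 (A 2 (A 3 ξ))) = ξ := hξ
  have h2 := congrArg (fun v => A 1 (A 0 v)) h
  simp only [C.sq, map_neg, neg_neg, C.s10] at h2
  exact h2

theorem AQ_Ul (C : Cliff A) {ξ : E} (hξ : om A ξ = ξ) (q x y : ℍ[ℝ]) :
    AQ A q (Ul A ξ (x, y)) = Ul A ξ (-(star q * y), q * x) := by
  simp only [Ul_apply, AQ_apply, map_add, map_neg, map_smul, C.sq, C.s10, C.s20, C.s30, C.s21,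
    C.s31, C.s32, C.rel12 hξ, C.rel13 hξ, C.rel23 hξ, neg_neg, smul_neg, smul_add]
  simp only [Quaternion.re_neg, Quaternion.imI_neg, Quaternion.imJ_neg, Quaternion.imK_neg,
    Quaternion.re_mul, Quaternion.imI_mul, Quaternion.imJ_mul, Quaternion.imK_mul,
    Quaternion.re_star, Quaternion.imI_star, Quaternion.imJ_star, Quaternion.imK_star]
  module

theorem AQ_norm (C : Cliff A) (q : ℍ[ℝ]) (x : E) : ‖AQ A q x‖ = ‖q‖ * ‖x‖ := by
  have h := C.Aq_inner ![q.re, q.imI, q.imJ, q.imK] x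
  rw [nsq_quat, real_inner_self_eq_norm_sq, real_inner_self_eq_norm_sq, ← mul_pow] at h
  exact (sq_eq_sq₀ (norm_nonneg _) (by positivity)).mp h

theorem A_norm (C : Cliff A) (k : Fin 4) (x : E) : ‖A k x‖ = ‖x‖ := by
  have h := C.inner_A_self k x
  rw [real_inner_self_eq_norm_sq, real_inner_self_eq_norm_sq] at h
  exact (sq_eq_sq₀ (norm_nonneg _) (norm_nonneg _)).mp h

theorem om_AQ (C : Cliff A) (q : ℍ[ℝ]) (x : E) : om A (AQ A q x) = -AQ A q (om A x) := C.om_Aq _ x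

theorem om_Ul_left (C : Cliff A) {ξ : E} (hξ : om A ξ = ξ) (x : ℍ[ℝ]) :
    om A (Ul A ξ (x, 0)) = Ul A ξ (x, 0) := by
  have h0 : AQ A 0 ξ = 0 := by simp [AQ_apply]
  rw [Ul_apply, h0, add_zero, map_neg, C.om_anti, C.om_AQ, hξ, map_neg, neg_neg]

theorem om_Ul_right (C : Cliff A) {ξ : E} (hξ : om A ξ = ξ) (y : ℍ[ℝ]) :
    om A (Ul A ξ (0, y)) = -Ul A ξ (0, y) := by
  have h0 : AQ A 0 ξ = 0 := by simp [AQ_apply]
  rw [Ul_apply, h0, map_zero, neg_zero, zero_add, C.om_AQ, hξ]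

theorem Ul_split (A : Fin 4 → E →L[ℝ] E) (ξ : E) (x y : ℍ[ℝ]) :
    Ul A ξ (x, y) = Ul A ξ (x, 0) + Ul A ξ (0, y) := by
  rw [← map_add]; simp

theorem Ul_norm_sq (C : Cliff A) {ξ : E} (hξ : om A ξ = ξ) (hn : ‖ξ‖ = 1) (x y : ℍ[ℝ]) :
    ‖Ul A ξ (x, y)‖ ^ 2 = ‖x‖ ^ 2 + ‖y‖ ^ 2 := by
  have h0 : AQ A 0 ξ = 0 := by simp [AQ_apply]
  have h1 : ⟪Ul A ξ (x, 0), Ul A ξ (0, y)⟫_ℝ = 0 :=
    C.inner_pos_neg (C.om_Ul_left hξ x) (C.om_Ul_right hξ y)
  have h2 : ‖Ul A ξ (x, 0)‖ = ‖x‖ := by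
    rw [Ul_apply, h0, add_zero, norm_neg, C.A_norm, C.AQ_norm, hn, mul_one]
  have h3 : ‖Ul A ξ (0, y)‖ = ‖y‖ := by
    rw [Ul_apply, h0, map_zero, neg_zero, zero_add, C.AQ_norm, hn, mul_one]
  rw [Ul_split, pow_two, norm_add_sq_eq_norm_sq_add_norm_sq_real h1, h2, h3]
  ring

theorem Ul_injective (C : Cliff A) {ξ : E} (hξ : om A ξ = ξ) (hn : ‖ξ‖ = 1) :
    Function.Injective (Ul A ξ) := by
  rw [← LinearMap.ker_eq_bot, LinearMap.ker_eq_bot']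
  rintro ⟨x, y⟩ h
  have h1 := C.Ul_norm_sq hξ hn x y
  rw [h, norm_zero] at h1
  have hx : ‖x‖ = 0 := by nlinarith [sq_nonneg ‖x‖, sq_nonneg ‖y‖]
  have hy : ‖y‖ = 0 := by nlinarith [sq_nonneg ‖x‖, sq_nonneg ‖y‖]
  rw [norm_eq_zero.mp hx, norm_eq_zero.mp hy]
  rfl

theorem finrank_HH : Module.finrank ℝ (ℍ[ℝ] × ℍ[ℝ]) = 8 := by
  rw [Module.finrank_prod, Quaternion.finrank_eq_four]

/-- Quaternionic coordinates as a linear equivalence. -/
noncomputable def U (C : Cliff A) (hE : Module.finrank ℝ E = 8) {ξ : E} (hξ : om A ξ = ξ)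
    (hn : ‖ξ‖ = 1) : (ℍ[ℝ] × ℍ[ℝ]) ≃ₗ[ℝ] E :=
  haveI : FiniteDimensional ℝ E := Module.finite_of_finrank_pos (by omega)
  LinearEquiv.ofInjectiveOfFinrankEq (Ul A ξ) (C.Ul_injective hξ hn) (by rw [finrank_HH, hE])

end Cliff

end Pool.Agent.Work.MP_fad7c9_gt
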