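import Mathlib
import Pool.Agent.Work.MP_fad7c9_gt.Quat

set_option autoImplicit false

namespace Pool.Agent.Work.MP_fad7c9_gt

open scoped InnerProductSpace Topology Matrix Quaternion
open Filter

variable {E : Type*} [NormedAddCommGroup E] [InnerProductSpace ℝ E]

/-- coefficient vector of a quaternion -/
def qvec (q : ℍ[ℝ]) : Fin 4 → ℝ := ![q.re, q.imI, q.imJ, q.imK]

theorem qvec_add (p q : ℍ[ℝ]) : qvec (p + q) = qvec p + qvec q := by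
  ext i; fin_cases i <;> simp [qvec]

theorem qvec_smul (t : ℝ) (q : ℍ[ℝ]) : qvec (t • q) = t • qvec q := by
  ext i; fin_cases i <;> simp [qvec]

/-- A `4 × 4` matrix acting on quaternions. -/
noncomputable def gq (G : Matrix (Fin 4) (Fin 4) ℝ) : ℍ[ℝ] →ₗ[ℝ] ℍ[ℝ] where
  toFun q := ⟨(G *ᵥ qvec q) 0, (G *ᵥ qvec q) 1, (G *ᵥ qvec q) 2, (G *ᵥ qvec q) 3⟩
  map_add' := by
    intro p q
    rw [qvec_add, Matrix.mulVec_add]
    ext <;> simp
  map_smul' := by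
    intro t q
    rw [qvec_smul, Matrix.mulVec_smul]
    ext <;> simp

theorem AQ_gq (A : Fin 4 → E →L[ℝ] E) (G : Matrix (Fin 4) (Fin 4) ℝ) (q : ℍ[ℝ]) (x : E) :
    AQ A (gq G q) x = Aq A (G *ᵥ qvec q) x := by
  rw [AQ]
  congr 2
  ext i; fin_cases i <;> rfl

theorem L_Aq {A : Fin 4 → E →L[ℝ] E} {L : E →ₗ[ℝ] E} {G : Matrix (Fin 4) (Fin 4) ℝ}
    (hG : ∀ k x, L (A k x) = ∑ j, G j k • A j (L x)) (q : Fin 4 → ℝ) (x : E) :
    L (Aq A q x) = Aq A (G *ᵥ q) (L x) := by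
  simp only [Aq_apply, map_sum, map_smul, hG, Matrix.mulVec, dotProduct, Finset.smul_sum,
    Finset.sum_smul, smul_smul]
  rw [Finset.sum_comm]
  apply Finset.sum_congr rfl
  intro j _
  apply Finset.sum_congr rfl
  intro k _
  rw [mul_comm]

theorem L_AQ {A : Fin 4 → E →L[ℝ] E} {L : E →ₗ[ℝ] E} {G : Matrix (Fin 4) (Fin 4) ℝ}
    (hG : ∀ k x, L (A k x) = ∑ j, G j k • A j (L x)) (q : ℍ[ℝ]) (x : E) :
    L (AQ A q x) = AQ A (gq G q) (L x) := by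
  rw [AQ_gq, ← L_Aq hG]; rfl

theorem om_Ul (A : Fin 4 → E →L[ℝ] E) (C : Cliff A) {ξ : E} (hξ : om A ξ = ξ) (x y : ℍ[ℝ]) :
    om A (Ul A ξ (x, y)) = Ul A ξ (x, -y) := by
  rw [Cliff.Ul_split, map_add, C.om_Ul_left hξ, C.om_Ul_right hξ, Cliff.Ul_split A ξ x (-y)]
  congr 1
  rw [← map_neg]; simp

namespace HIso

variable {A : Fin 4 → E →L[ℝ] E} {F : E → E}

theorem classify_pos (C : Cliff A) (H : HIso A F) (hE : Module.finrank ℝ E = 8) (P : Pos A F)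
    {ξ : E} (hξ : om A ξ = ξ) (hn : ‖ξ‖ = 1) :
    ∃ a b s : ℍ[ℝ], ‖a‖ = 1 ∧ ‖b‖ = 1 ∧ ‖s‖ = 1 ∧
      ∀ x y, F (Ul A ξ (x, y)) = Ul A ξ (a * x * s, b * y * s) := by
  obtain ⟨L, G, hL, hG⟩ := H.linear_of_pos C hE P
  have hinj := C.Ul_injective hξ hn
  let u := C.U hE hξ hn
  have hu : ∀ z, u z = Ul A ξ z := fun z => rfl
  let α : ℍ[ℝ] →ₗ[ℝ] ℍ[ℝ] := (LinearMap.fst ℝ ℍ[ℝ] ℍ[ℝ]).comp
    ((u.symm : E →ₗ[ℝ] (ℍ[ℝ] × ℍ[ℝ])).comp (L.comp ((Ul A ξ).comp (LinearMap.inl ℝ ℍ[ℝ] ℍ[ℝ]))))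
  let β : ℍ[ℝ] →ₗ[ℝ] ℍ[ℝ] := (LinearMap.snd ℝ ℍ[ℝ] ℍ[ℝ]).comp
    ((u.symm : E →ₗ[ℝ] (ℍ[ℝ] × ℍ[ℝ])).comp (L.comp ((Ul A ξ).comp (LinearMap.inr ℝ ℍ[ℝ] ℍ[ℝ]))))
  have hα : ∀ x, L (Ul A ξ (x, 0)) = Ul A ξ (α x, 0) := by
    intro x
    obtain ⟨⟨p, q⟩, hpq⟩ := u.surjective (L (Ul A ξ (x, 0)))
    have e1 : om A (L (Ul A ξ (x, 0))) = L (Ul A ξ (x, 0)) := by
      rw [← hL]; exact H.F_pos C P (C.om_Ul_left hξ x)
    rw [hu] at hpq
    rw [← hpq, om_Ul A C hξ] at e1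
    have e2 := congrArg Prod.snd (hinj e1)
    have e3 : q = 0 := by
      have e4 : -q = q := e2
      have e5 : (2 : ℝ) • q = 0 := by
        rw [two_smul]; nth_rewrite 1 [← e4]; exact neg_add_cancel q
      exact (smul_eq_zero.mp e5).resolve_left two_ne_zero
    have e6 : α x = p := by
      show (u.symm (L (Ul A ξ (x, 0)))).1 = p
      rw [← hpq, ← hu, LinearEquiv.symm_apply_apply]
    rw [e6, ← hpq, e3]
  have hβ : ∀ y, L (Ul A ξ (0, y)) = Ul A ξ (0, β y) := by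
    intro y
    obtain ⟨⟨p, q⟩, hpq⟩ := u.surjective (L (Ul A ξ (0, y)))
    have e1 : om A (L (Ul A ξ (0, y))) = -L (Ul A ξ (0, y)) := by
      rw [← hL]; exact H.F_neg C P (C.om_Ul_right hξ y)
    rw [hu] at hpq
    rw [← hpq, om_Ul A C hξ, ← map_neg] at e1
    have e2 := congrArg Prod.fst (hinj e1)
    have e3 : p = 0 := by
      have e4 : p = -p := e2
      have e5 : (2 : ℝ) • p = 0 := by
        rw [two_smul]; nth_rewrite 1 [e4]; exact neg_add_cancel p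
      exact (smul_eq_zero.mp e5).resolve_left two_ne_zero
    have e6 : β y = q := by
      show (u.symm (L (Ul A ξ (0, y)))).2 = q
      rw [← hpq, ← hu, LinearEquiv.symm_apply_apply]
    rw [e6, ← hpq, e3]
  have hnL : ∀ v, ‖L v‖ = ‖v‖ := fun v => by rw [← hL, H.norm]
  have n1 : ∀ x, ‖α x‖ = ‖x‖ := by
    intro x
    have e1 := C.Ul_norm_sq hξ hn (α x) 0
    have e2 := C.Ul_norm_sq hξ hn x 0
    rw [← hα, hnL, e2, norm_zero] at e1
    have e3 : ‖α x‖ ^ 2 = ‖x‖ ^ 2 := by linarith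
    exact (sq_eq_sq₀ (norm_nonneg _) (norm_nonneg _)).mp e3
  have n2 : ∀ q, ‖gq G q‖ = ‖q‖ := by
    intro q
    have e1 := L_AQ hG q ξ
    have e2 := congrArg (fun v => ‖v‖) e1
    simp only [hnL, C.AQ_norm, hn, mul_one] at e2
    exact e2.symm
  have r1 : ∀ q x, β (q * x) = gq G q * α x := by
    intro q x
    have e1 := L_AQ hG q (Ul A ξ (x, 0))
    rw [C.AQ_Ul hξ, hα, C.AQ_Ul hξ, mul_zero, neg_zero, hβ, mul_zero, neg_zero] at e1
    exact congrArg Prod.snd (hinj e1)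
  have r2 : ∀ q y, α (star q * y) = star (gq G q) * β y := by
    intro q y
    have e1 := L_AQ hG q (Ul A ξ (0, y))
    rw [C.AQ_Ul hξ, hβ, C.AQ_Ul hξ, mul_zero, hα, mul_zero, map_neg] at e1
    exact neg_injective (congrArg Prod.fst (hinj e1))
  obtain ⟨a, b, s, ha, hb, hs, h1, h2⟩ := quat_classify α β (gq G) n1 n2 r1 r2
  refine ⟨a, b, s, ha, hb, hs, ?_⟩
  intro x y
  rw [hL, Cliff.Ul_split, map_add, hα, hβ, h1, h2, ← Cliff.Ul_split]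

theorem pos_or (C : Cliff A) (H : HIso A F) (hE : Module.finrank ℝ E = 8) :
    Pos A F ∨ Pos A (fun x => A 0 (F x)) := by
  obtain ⟨ξ₀, η₀, hξ₀, hη₀, hξn, hηn⟩ := exists_chiral C hE
  rcases sq_eq_one_iff.mp (det_sq_of_orth _ (H.Gm_orth C hξn)) with hd | hd
  · left
    exact H.pos_of_det C hE fun x hx => by rw [H.det_const C hE hx hξn, hd]
  · right
    constructor
    intro x
    by_cases hx : x = 0
    · subst hx
      simp [H.F_zero]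
    · have h1 := C.om_inner_Aq (Pi.single 0 1) (F x)
      rw [Aq_single] at h1
      have h2 : nsq (Pi.single (0 : Fin 4) (1 : ℝ)) = 1 := by
        simp [nsq, Fin.sum_univ_four]
      rw [h2, one_mul] at h1
      have h3 := H.sg_eq C hE hx
      rw [H.det_const C hE hx hξn, hd] at h3
      unfold sg at h3 ⊢
      rw [h1, h3]; ring

/-- Classification: in quaternionic coordinates `F` is `(x, y) ↦ (a x s, b y s)` or
`(x, y) ↦ (b y s, -a x s)`. -/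
theorem classify (C : Cliff A) (H : HIso A F) (hE : Module.finrank ℝ E = 8)
    {ξ : E} (hξ : om A ξ = ξ) (hn : ‖ξ‖ = 1) :
    ∃ a b s : ℍ[ℝ], ‖a‖ = 1 ∧ ‖b‖ = 1 ∧ ‖s‖ = 1 ∧
      ((∀ x y, F (Ul A ξ (x, y)) = Ul A ξ (a * x * s, b * y * s)) ∨
        ∀ x y, F (Ul A ξ (x, y)) = Ul A ξ (b * y * s, -(a * x * s))) := by
  rcases H.pos_or C hE with P | P
  · obtain ⟨a, b, s, ha, hb, hs, h⟩ := H.classify_pos C hE P hξ hn
    exact ⟨a, b, s, ha, hb, hs, Or.inl h⟩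
  · obtain ⟨a, b, s, ha, hb, hs, h⟩ := (H.comp_A0 C).classify_pos C hE P hξ hn
    refine ⟨a, b, s, ha, hb, hs, Or.inr ?_⟩
    intro x y
    have h1 := congrArg (A 0) (h x y)
    have h2 : ∀ w, A 0 w = AQ A 1 w := by
      intro w; simp [AQ_apply]
    simp only [C.sq] at h1
    rw [h2, C.AQ_Ul hξ, star_one, one_mul, one_mul] at h1
    rw [← neg_neg (F _), h1, ← map_neg]
    simp

end HIso

end Pool.Agent.Work.MP_fad7c9_gt
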