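import Mathlib
import Pool.Agent.Work.MP_fad7c9_gt.Defs
import Pool.Agent.Work.MP_fad7c9_gt.Rigid

set_option autoImplicit false

namespace Pool.Agent.Work.MP_fad7c9_gt

open scoped InnerProductSpace Topology Matrix Manifold ContDiff
open Filter

/-- The continuous linear operators of the matrices. -/
noncomputable def op (A : Fin 4 → Matrix (Fin 8) (Fin 8) ℝ) (k : Fin 4) : E8 →L[ℝ] E8 :=
  Matrix.toEuclideanCLM (𝕜 := ℝ) (A k)

theorem op_apply (A : Fin 4 → Matrix (Fin 8) (Fin 8) ℝ) (k : Fin 4) (x : E8) :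
    op A k x = X (A k) x := rfl

theorem cliff_of {A : Fin 4 → Matrix (Fin 8) (Fin 8) ℝ} (hA : CliffordQuadruple A) :
    Cliff (op A) := by
  have hmul : ∀ i j x, op A i (op A j x) = Matrix.toEuclideanCLM (𝕜 := ℝ) (A i * A j) x := by
    intro i j x
    rw [map_mul]; rfl
  have hadd : ∀ i j x, op A i (op A j x) + op A j (op A i x) = (if i = j then (-2 : ℝ) else 0) • x := by
    intro i j x
    rw [hmul, hmul, ← add_apply, ← map_add, hA.rel, map_smul, map_one]
    rfl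
  refine ⟨?_, ?_, ?_⟩
  · intro k x y
    have h1 : ContinuousLinearMap.adjoint (op A k) = -op A k := by
      have h2 : star (op A k) = Matrix.toEuclideanCLM (𝕜 := ℝ) (star (A k)) := by
        rw [op, map_star]
      have h3 : star (A k) = -A k := by
        rw [Matrix.star_eq_conjTranspose]
        have : (A k)ᴴ = (A k).transpose := by
          ext i j; simp [Matrix.conjTranspose_apply]
        rw [this, hA.skew]
      rw [← ContinuousLinearMap.star_eq_adjoint, h2, h3, map_neg]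
      rfl
    have h4 := ContinuousLinearMap.adjoint_inner_right (op A k) x y
    rw [h1] at h4
    rw [← h4]
    simp
  · intro k x
    have h := hadd k k x
    rw [if_pos rfl, ← two_smul ℝ] at h
    have h2 : (2 : ℝ) • (op A k (op A k x)) = (2 : ℝ) • (-x) := by
      rw [h]; module
    exact smul_right_injective E8 (two_ne_zero) h2
  · intro i j hij x
    have h := hadd i j x
    rw [if_neg hij, zero_smul] at h
    exact eq_neg_of_add_eq_zero_left h

/-- Radial projection onto the sphere (with a junk value at the origin). -/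
noncomputable def nrm (x : E8) : S7 :=
  if h : x = 0 then ⟨EuclideanSpace.single 0 1, by simp⟩ else
    ⟨‖x‖⁻¹ • x, by
      rw [mem_sphere_zero_iff_norm, norm_smul, norm_inv, norm_norm,
        inv_mul_cancel₀ (norm_ne_zero_iff.mpr h)]⟩

theorem nrm_coe {x : E8} (hx : x ≠ 0) : (nrm x : E8) = ‖x‖⁻¹ • x := by
  rw [nrm, dif_neg hx]

theorem nrm_sphere (x : S7) : nrm x = x := by
  have hx : (x : E8) ≠ 0 := ne_zero_of_mem_unit_sphere x
  apply Subtype.ext
  rw [nrm_coe hx, norm_eq_of_mem_sphere, inv_one, one_smul]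

/-- The homogeneous extension of a self-map of the sphere. -/
noncomputable def ext8 (φ : S7 → S7) (x : E8) : E8 := ‖x‖ • (φ (nrm x) : E8)

theorem ext8_norm (φ : S7 → S7) (x : E8) : ‖ext8 φ x‖ = ‖x‖ := by
  rw [ext8, norm_smul, norm_norm, norm_eq_of_mem_sphere, mul_one]

theorem ext8_homog (φ : S7 → S7) (t : ℝ) (ht : 0 < t) (x : E8) :
    ext8 φ (t • x) = t • ext8 φ x := by
  by_cases hx : x = 0
  · subst hx; simp [ext8]
  · have h1 : nrm (t • x) = nrm x := by
      apply Subtype.ext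
      rw [nrm_coe hx, nrm_coe (smul_ne_zero ht.ne' hx), norm_smul, Real.norm_of_nonneg ht.le,
        smul_smul]
      congr 1
      field_simp
    rw [ext8, ext8, h1, norm_smul, Real.norm_of_nonneg ht.le, smul_smul]

theorem ext8_sphere (φ : S7 → S7) (x : S7) : ext8 φ x = φ x := by
  rw [ext8, nrm_sphere, norm_eq_of_mem_sphere, one_smul]

instance fact8 : Fact (Module.finrank ℝ E8 = 7 + 1) := ⟨finrank_euclideanSpace_fin⟩

/-- The punctured space. -/
def punct : TopologicalSpace.Opens E8 := ⟨{0}ᶜ, isOpen_compl_singleton⟩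

theorem ext8_smooth (φ : S7 → S7) (hφ : ContMDiff (𝓡 7) (𝓡 7) ∞ φ) (x : E8) (hx : x ≠ 0) :
    ContDiffAt ℝ ∞ (ext8 φ) x := by
  have hf : ContMDiff 𝓘(ℝ, E8) 𝓘(ℝ, E8) ∞ (fun y : punct => ‖(y : E8)‖⁻¹ • (y : E8)) := by
    intro y
    have hy : (y : E8) ≠ 0 := y.2
    rw [contMDiffAt_subtype_iff (f := fun y : E8 => ‖y‖⁻¹ • y)]
    rw [contMDiffAt_iff_contDiffAt]
    exact ((contDiffAt_norm ℝ hy).inv (norm_ne_zero_iff.mpr hy)).smul contDiffAt_id
  have hmem : ∀ y : punct, ‖(y : E8)‖⁻¹ • (y : E8) ∈ Metric.sphere (0 : E8) 1 := by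
    intro y
    have hy : (y : E8) ≠ 0 := y.2
    rw [mem_sphere_zero_iff_norm, norm_smul, norm_inv, norm_norm,
      inv_mul_cancel₀ (norm_ne_zero_iff.mpr hy)]
  have h1 : ContMDiff 𝓘(ℝ, E8) (𝓡 7) ∞
      (Set.codRestrict (fun y : punct => ‖(y : E8)‖⁻¹ • (y : E8)) _ hmem) :=
    hf.codRestrict_sphere (n := 7) hmem
  have h2 : ContMDiff 𝓘(ℝ, E8) 𝓘(ℝ, E8) ∞ (fun y : punct => (φ (nrm y) : E8)) := by
    have h3 := (contMDiff_coe_sphere (m := ∞) (n := 7) (E := E8)).comp (hφ.comp h1)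
    have h4 : (fun y : punct => (φ (nrm y) : E8)) = (Subtype.val : S7 → E8) ∘ (φ ∘
        (Set.codRestrict (fun y : punct => ‖(y : E8)‖⁻¹ • (y : E8)) _ hmem)) := by
      funext y
      have hy : (y : E8) ≠ 0 := y.2
      have : nrm (y : E8) = Set.codRestrict (fun y : punct => ‖(y : E8)‖⁻¹ • (y : E8)) _ hmem y :=
        Subtype.ext (nrm_coe hy)
      simp only [Function.comp, this]
    rw [h4]
    exact h3
  have h3 : ContDiffAt ℝ ∞ (fun y : E8 => (φ (nrm y) : E8)) x := by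
    rw [← contMDiffAt_iff_contDiffAt]
    exact (contMDiffAt_subtype_iff (f := fun y : E8 => (φ (nrm y) : E8)) (x := ⟨x, hx⟩)).mp
      (h2 ⟨x, hx⟩)
  exact (contDiffAt_norm ℝ hx).smul h3

/-- The differential of the inclusion composed with the differential of a self-map. -/
theorem ambient_mfderiv (φ : S7 → S7) (hφ : ContMDiff (𝓡 7) (𝓡 7) ∞ φ) (x : S7)
    (v : TangentSpace (𝓡 7) x) :
    ambient (φ x) (mfderiv (𝓡 7) (𝓡 7) φ x v) = fderiv ℝ (ext8 φ) x (ambient x v) := by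
  have hx : (x : E8) ≠ 0 := ne_zero_of_mem_unit_sphere x
  have hval : ∀ y : S7, MDifferentiableAt (𝓡 7) 𝓘(ℝ, E8) (Subtype.val : S7 → E8) y := fun y =>
    (contMDiff_coe_sphere (m := 1) (n := 7) (E := E8) y).mdifferentiableAt one_ne_zero
  have hF : MDifferentiableAt 𝓘(ℝ, E8) 𝓘(ℝ, E8) (ext8 φ) (x : E8) :=
    (((ext8_smooth φ hφ x hx).differentiableAt (by simp)).mdifferentiableAt)
  have h1 := mfderiv_comp (I := 𝓡 7) (I' := 𝓡 7) (I'' := 𝓘(ℝ, E8)) x (hval (φ x))
    ((hφ x).mdifferentiableAt (by simp))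
  have h2 := mfderiv_comp (I := 𝓡 7) (I' := 𝓘(ℝ, E8)) (I'' := 𝓘(ℝ, E8)) x hF (hval x)
  have h3 : (Subtype.val : S7 → E8) ∘ φ = ext8 φ ∘ (Subtype.val : S7 → E8) := by
    funext y
    exact (ext8_sphere φ y).symm
  rw [h3, h2] at h1
  have h4 := congrArg (fun T => T v) h1
  rw [mfderiv_eq_fderiv] at h4
  exact h4.symm

theorem Hor_mem {A : Fin 4 → Matrix (Fin 8) (Fin 8) ℝ} {x w : E8} :
    w ∈ Hor A x ↔ ∃ p, w = Aq (op A) p x := by
  rw [Hor, Submodule.mem_span_range_iff_exists_fun]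
  constructor
  · rintro ⟨c, hc⟩
    exact ⟨c, by rw [← hc, Aq_apply]; rfl⟩
  · rintro ⟨c, hc⟩
    exact ⟨c, by rw [hc, Aq_apply]; rfl⟩

theorem fderiv_homog {F : E8 → E8} (hF : ∀ t : ℝ, 0 < t → ∀ x, F (t • x) = t • F x)
    (hs : ∀ x, x ≠ 0 → ContDiffAt ℝ ∞ F x) {x : E8} (hx : x ≠ 0) {t : ℝ} (ht : 0 < t) (w : E8) :
    fderiv ℝ F (t • x) w = fderiv ℝ F x w := by
  have a1 : HasFDerivAt (fun y : E8 => t • y) (t • ContinuousLinearMap.id ℝ E8) x :=
    (hasFDerivAt_id x).const_smul t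
  have a2 : HasFDerivAt F (fderiv ℝ F (t • x)) (t • x) :=
    ((hs _ (smul_ne_zero ht.ne' hx)).differentiableAt (by simp)).hasFDerivAt
  have a3 : HasFDerivAt F (fderiv ℝ F x) x :=
    ((hs _ hx).differentiableAt (by simp)).hasFDerivAt
  have a4 : HasFDerivAt (fun y : E8 => F (t • y))
      ((fderiv ℝ F (t • x)).comp (t • ContinuousLinearMap.id ℝ E8)) x := a2.comp x a1
  have a5 : HasFDerivAt (fun y : E8 => F (t • y)) (t • fderiv ℝ F x) x := by
    have : (fun y : E8 => F (t • y)) = fun y => t • F y := by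
      funext y; exact hF t ht y
    rw [this]
    exact a3.const_smul t
  have a6 := congrArg (fun T => T w) (a4.unique a5)
  simp only [ContinuousLinearMap.comp_apply, smul_apply,
    ContinuousLinearMap.id_apply, map_smul] at a6
  exact smul_right_injective E8 ht.ne' a6

theorem norm_Aq {A : Fin 4 → Matrix (Fin 8) (Fin 8) ℝ} (hA : CliffordQuadruple A)
    (q : Fin 4 → ℝ) (x : S7) : ‖Aq (op A) q x‖ ^ 2 = nsq q := by
  have := (cliff_of hA).Aq_inner q (x : E8)
  rw [real_inner_self_eq_norm_sq, real_inner_self_eq_norm_sq, norm_eq_of_mem_sphere] at this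
  rw [this]; ring

theorem exists_ambient (x : S7) {w : E8} (hw : ⟪(x : E8), w⟫_ℝ = 0) :
    ∃ v : TangentSpace (𝓡 7) x, ambient x v = w := by
  have h := range_mvfderiv_subtypeVal (E := E8) (n := 7) x
  have h2 : w ∈ (ℝ ∙ (x : E8))ᗮ := Submodule.mem_orthogonal_singleton_iff_inner_right.mpr hw
  rw [← h] at h2
  exact h2

theorem hiso_of {A : Fin 4 → Matrix (Fin 8) (Fin 8) ℝ} (hA : CliffordQuadruple A)
    (φ : Diffeomorph (𝓡 7) (𝓡 7) S7 S7 ∞) (hφ : IsSubRiemannianIsometry A φ) :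
    HIso (op A) (ext8 φ) := by
  have C := cliff_of hA
  have hsm := ext8_smooth φ φ.contMDiff
  refine ⟨fun x hx => (hsm x hx).of_le (WithTop.coe_le_coe.mpr (le_top : (2 : ℕ∞) ≤ ⊤)), ext8_homog φ, ext8_norm φ, ?_⟩
  have key : ∀ x : S7, ∀ q : Fin 4 → ℝ, ∃ p : Fin 4 → ℝ,
      fderiv ℝ (ext8 φ) x (Aq (op A) q x) = Aq (op A) p (ext8 φ x) ∧ nsq p = nsq q := by
    intro x q
    have h0 : ⟪(x : E8), Aq (op A) q x⟫_ℝ = 0 := by
      have := C.Aq_skew q (x : E8) x
      rw [real_inner_comm] at this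
      linarith
    obtain ⟨v, hv⟩ := exists_ambient x h0
    obtain ⟨h1, h2⟩ := hφ x v (Hor_mem.mpr ⟨q, hv⟩)
    rw [ambient_mfderiv φ φ.contMDiff, hv] at h1 h2
    obtain ⟨p, hp⟩ := Hor_mem.mp h1
    refine ⟨p, ?_, ?_⟩
    · rw [hp, ext8_sphere]
    · rw [← norm_Aq hA p (φ x), ← norm_Aq hA q x, ← hp, h2]
  intro x hx q
  have hxn : 0 < ‖x‖ := norm_pos_iff.mpr hx
  obtain ⟨p, hp, hpq⟩ := key (nrm x) q
  refine ⟨p, ?_, hpq⟩
  have hx1 : x = ‖x‖ • (nrm x : E8) := by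
    rw [nrm_coe hx, smul_smul, mul_inv_cancel₀ hxn.ne', one_smul]
  have hu : (nrm x : E8) ≠ 0 := ne_zero_of_mem_unit_sphere _
  rw [hx1, fderiv_homog (ext8_homog φ) hsm hu hxn, map_smul, map_smul, hp,
    ext8_homog φ _ hxn, map_smul]

end Pool.Agent.Work.MP_fad7c9_gt
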