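import Mathlib
import Pool.Agent.Work.MP_fad7c9_gt.Mfd
import Pool.Agent.Work.MP_fad7c9_gt.Classify

set_option autoImplicit false

namespace Pool.Agent.Work.MP_fad7c9_gt

open scoped InnerProductSpace Topology Matrix Quaternion Manifold ContDiff
open Filter

/-- The restriction of a linear isometry to the sphere. -/
noncomputable def sphereDiffeo (T : E8 ≃ₗᵢ[ℝ] E8) : Diffeomorph (𝓡 7) (𝓡 7) S7 S7 ∞ where
  toFun x := ⟨T x, by simp⟩
  invFun x := ⟨T.symm x, by simp⟩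
  left_inv x := by simp
  right_inv x := by simp
  contMDiff_toFun := by
    have h1 : ContMDiff (𝓡 7) 𝓘(ℝ, E8) ∞ (fun x : S7 => T (x : E8)) :=
      T.contDiff.contMDiff.comp (contMDiff_coe_sphere (m := ∞) (n := 7) (E := E8))
    exact h1.codRestrict_sphere (n := 7) (fun x => by simp)
  contMDiff_invFun := by
    have h1 : ContMDiff (𝓡 7) 𝓘(ℝ, E8) ∞ (fun x : S7 => T.symm (x : E8)) :=
      T.symm.contDiff.contMDiff.comp (contMDiff_coe_sphere (m := ∞) (n := 7) (E := E8))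
    exact h1.codRestrict_sphere (n := 7) (fun x => by simp)

theorem sphereDiffeo_coe (T : E8 ≃ₗᵢ[ℝ] E8) (x : S7) : (sphereDiffeo T x : E8) = T x := rfl

theorem ext8_sphereDiffeo (T : E8 ≃ₗᵢ[ℝ] E8) (x : E8) : ext8 (sphereDiffeo T) x = T x := by
  by_cases hx : x = 0
  · subst hx; simp [ext8]
  · rw [ext8, sphereDiffeo_coe, nrm_coe hx, map_smul, smul_smul,
      mul_inv_cancel₀ (norm_ne_zero_iff.mpr hx), one_smul]

theorem AQ_of (A : Fin 4 → E8 →L[ℝ] E8) (p : Fin 4 → ℝ) : Aq A p = AQ A ⟨p 0, p 1, p 2, p 3⟩ := by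
  rw [AQ]
  congr 1
  ext i; fin_cases i <;> rfl

theorem isIsometry {A : Fin 4 → Matrix (Fin 8) (Fin 8) ℝ} (T : E8 ≃ₗᵢ[ℝ] E8) (g : ℍ[ℝ] → ℍ[ℝ])
    (hg : ∀ q x, T (AQ (op A) q x) = AQ (op A) (g q) (T x)) :
    IsSubRiemannianIsometry A (sphereDiffeo T) := by
  intro x v hv
  obtain ⟨p, hp⟩ := Hor_mem.mp hv
  have h1 : fderiv ℝ (ext8 (sphereDiffeo T)) x (ambient x v) = T (ambient x v) := by
    have h2 : ext8 (sphereDiffeo T) = T := funext (ext8_sphereDiffeo T)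
    rw [h2]
    have h3 : HasFDerivAt (T : E8 → E8) (T.toContinuousLinearEquiv : E8 →L[ℝ] E8) (x : E8) :=
      T.toContinuousLinearEquiv.hasFDerivAt
    rw [h3.fderiv]
    rfl
  rw [ambient_mfderiv (sphereDiffeo T) (sphereDiffeo T).contMDiff, h1]
  refine ⟨?_, T.norm_map _⟩
  rw [hp, AQ_of, hg, Hor_mem]
  exact ⟨_, rfl⟩

/-- The restriction of a linear isometry, as a continuous map. -/
noncomputable def toC (T : E8 ≃ₗᵢ[ℝ] E8) : C(S7, S7) :=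
  ⟨fun x => ⟨T x, by simp⟩, by fun_prop⟩

theorem toC_mem {A : Fin 4 → Matrix (Fin 8) (Fin 8) ℝ} (T : E8 ≃ₗᵢ[ℝ] E8)
    (g : ℍ[ℝ] → ℍ[ℝ]) (hg : ∀ q x, T (AQ (op A) q x) = AQ (op A) (g q) (T x)) :
    toC T ∈ isometryGroup A :=
  ⟨sphereDiffeo T, isIsometry T g hg, fun _ => rfl⟩

/-- The unit quaternions. -/
abbrev S3 : Type := Metric.sphere (0 : ℍ[ℝ]) 1

/-- The maps `(x, y) ↦ (a x s, b y s)` and `(x, y) ↦ (b y s, -a x s)`. -/
noncomputable def Tq (ε : Bool) (a b s : ℍ[ℝ]) (z : ℍ[ℝ] × ℍ[ℝ]) : ℍ[ℝ] × ℍ[ℝ] :=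
  if ε then (b * z.2 * s, -(a * z.1 * s)) else (a * z.1 * s, b * z.2 * s)

theorem Tq_add (ε : Bool) (a b s : ℍ[ℝ]) (z w : ℍ[ℝ] × ℍ[ℝ]) :
    Tq ε a b s (z + w) = Tq ε a b s z + Tq ε a b s w := by
  cases ε
  · simp [Tq, mul_add, add_mul]
  · simp only [Tq, if_true, Prod.fst_add, Prod.snd_add, mul_add, add_mul, neg_add, Prod.mk_add_mk]

theorem Tq_smul (ε : Bool) (a b s : ℍ[ℝ]) (t : ℝ) (z : ℍ[ℝ] × ℍ[ℝ]) :
    Tq ε a b s (t • z) = t • Tq ε a b s z := by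
  cases ε
  · simp [Tq]
  · simp [Tq]

theorem continuous_Tq (ε : Bool) :
    Continuous (fun w : (ℍ[ℝ] × ℍ[ℝ] × ℍ[ℝ]) × (ℍ[ℝ] × ℍ[ℝ]) =>
      Tq ε w.1.1 w.1.2.1 w.1.2.2 w.2) := by
  cases ε
  · simp only [Tq, Bool.false_eq_true, if_false]; fun_prop
  · simp only [Tq, if_true]; fun_prop

section

variable {A : Fin 4 → E8 →L[ℝ] E8} (C : Cliff A) {ξ : E8} (hξ : om A ξ = ξ) (hn : ‖ξ‖ = 1)

/-- Quaternionic coordinates. -/
noncomputable def UU : (ℍ[ℝ] × ℍ[ℝ]) ≃L[ℝ] E8 :=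
  (C.U (by simp) hξ hn).toContinuousLinearEquiv

theorem UU_apply (z : ℍ[ℝ] × ℍ[ℝ]) : UU C hξ hn z = Ul A ξ z := rfl

include C hξ hn in
theorem norm_Tq (ε : Bool) (a b s : S3) (z : ℍ[ℝ] × ℍ[ℝ]) :
    ‖Ul A ξ (Tq ε a b s z)‖ = ‖Ul A ξ z‖ := by
  have ha : ‖(a : ℍ[ℝ])‖ = 1 := norm_eq_of_mem_sphere a
  have hb : ‖(b : ℍ[ℝ])‖ = 1 := norm_eq_of_mem_sphere b
  have hs : ‖(s : ℍ[ℝ])‖ = 1 := norm_eq_of_mem_sphere s
  obtain ⟨x, y⟩ := z
  apply (sq_eq_sq₀ (norm_nonneg _) (norm_nonneg _)).mp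
  cases ε
  · simp only [Tq, Bool.false_eq_true, if_false]
    rw [C.Ul_norm_sq hξ hn, C.Ul_norm_sq hξ hn]
    simp [ha, hb, hs]
  · simp only [Tq, if_true]
    rw [C.Ul_norm_sq hξ hn, C.Ul_norm_sq hξ hn]
    simp [ha, hb, hs, add_comm]

/-- The linear isometries of the two families. -/
noncomputable def Tiso (ε : Bool) (a b s : S3) : E8 ≃ₗᵢ[ℝ] E8 :=
  LinearIsometry.toLinearIsometryEquiv
    { toFun := fun w => UU C hξ hn (Tq ε a b s ((UU C hξ hn).symm w))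
      map_add' := by
        intro v w
        rw [map_add, Tq_add, map_add]
      map_smul' := by
        intro t w
        rw [map_smul, Tq_smul, map_smul]; rfl
      norm_map' := by
        intro w
        show ‖UU C hξ hn (Tq ε a b s ((UU C hξ hn).symm w))‖ = ‖w‖
        rw [UU_apply, norm_Tq C hξ hn, ← UU_apply C hξ hn, ContinuousLinearEquiv.apply_symm_apply] }
    rfl

theorem Tiso_apply (ε : Bool) (a b s : S3) (w : E8) :
    Tiso C hξ hn ε a b s w = UU C hξ hn (Tq ε a b s ((UU C hξ hn).symm w)) := rfl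

theorem Tiso_Ul (ε : Bool) (a b s : S3) (z : ℍ[ℝ] × ℍ[ℝ]) :
    Tiso C hξ hn ε a b s (Ul A ξ z) = Ul A ξ (Tq ε a b s z) := by
  rw [Tiso_apply, ← UU_apply C hξ hn, ContinuousLinearEquiv.symm_apply_apply, UU_apply]

theorem star_mul_self_one (a : S3) : star (a : ℍ[ℝ]) * (a : ℍ[ℝ]) = 1 := by
  rw [Quaternion.star_mul_self, Quaternion.normSq_eq_norm_mul_self, norm_eq_of_mem_sphere]
  simp

theorem Tiso_AQ (ε : Bool) (a b s : S3) (q : ℍ[ℝ]) (w : E8) :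
    Tiso C hξ hn ε a b s (AQ A q w) =
      AQ A (if ε then a * star q * star (b : ℍ[ℝ]) else b * q * star (a : ℍ[ℝ]))
        (Tiso C hξ hn ε a b s w) := by
  obtain ⟨⟨x, y⟩, rfl⟩ := (UU C hξ hn).surjective w
  have ea : ∀ t, star (a : ℍ[ℝ]) * (a * t) = t := by
    intro t; rw [← mul_assoc, star_mul_self_one, one_mul]
  have eb : ∀ t, star (b : ℍ[ℝ]) * (b * t) = t := by
    intro t; rw [← mul_assoc, star_mul_self_one, one_mul]
  rw [UU_apply, C.AQ_Ul hξ, Tiso_Ul, Tiso_Ul]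
  cases ε
  · simp only [Tq, Bool.false_eq_true, if_false]
    rw [C.AQ_Ul hξ]
    simp only [star_mul, star_star, mul_assoc, ea, eb, mul_neg, neg_mul]
  · simp only [Tq, if_true]
    rw [C.AQ_Ul hξ]
    simp only [star_mul, star_star, mul_assoc, ea, eb, mul_neg, neg_mul, neg_neg]

end

end Pool.Agent.Work.MP_fad7c9_gt
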