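import Mathlib

set_option autoImplicit false

namespace Pool.Agent.Work.MP_fad7c9_gt

open Topology Set Function

/-- A continuous surjection from a compact Hausdorff space to a Hausdorff space whose fibres are
the orbits of a fixed point free involution is a local homeomorphism. -/
theorem isLocalHomeomorph_of_two_to_one {K N : Type*} [TopologicalSpace K] [CompactSpace K]
    [T2Space K] [TopologicalSpace N] [T2Space N] (Φ : K → N) (hc : Continuous Φ)
    (hs : Surjective Φ) (σ : K → K) (hσ : Continuous σ) (hσσ : ∀ z, σ (σ z) = z)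
    (hne : ∀ z, σ z ≠ z) (hfib : ∀ z w, Φ z = Φ w ↔ w = z ∨ w = σ z) :
    IsLocalHomeomorph Φ := by
  have hq : IsQuotientMap Φ := hc.isClosedMap.isQuotientMap hc hs
  have hopen : IsOpenMap Φ := by
    intro U hU
    rw [← hq.isOpen_preimage]
    have : Φ ⁻¹' (Φ '' U) = U ∪ σ ⁻¹' U := by
      ext w
      constructor
      · rintro ⟨z, hz, hzw⟩
        rcases (hfib z w).mp hzw with h | h
        · left; rw [h]; exact hz
        · right
          show σ w ∈ U
          rw [h, hσσ]; exact hz
      · rintro (h | h)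
        · exact ⟨w, h, rfl⟩
        · exact ⟨σ w, h, (hfib _ _).mpr (Or.inr (hσσ w).symm)⟩
    rw [this]
    exact hU.union (hU.preimage hσ)
  rw [isLocalHomeomorph_iff_isOpenEmbedding_restrict]
  intro z
  obtain ⟨V₁, V₂, h1, h2, hz1, hz2, hd⟩ := t2_separation (hne z).symm
  have hUo : IsOpen (V₁ ∩ σ ⁻¹' V₂) := h1.inter (h2.preimage hσ)
  refine ⟨V₁ ∩ σ ⁻¹' V₂, hUo.mem_nhds ⟨hz1, hz2⟩, ?_⟩
  apply IsOpenEmbedding.of_continuous_injective_isOpenMap
  · exact hc.comp continuous_subtype_val
  · rintro ⟨x, hx⟩ ⟨y, hy⟩ hxy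
    have hxy' : Φ x = Φ y := hxy
    rcases (hfib x y).mp hxy' with h | h
    · exact Subtype.ext h.symm
    · exfalso
      have h3 : y ∈ V₂ := by rw [h]; exact hx.2
      exact (Set.disjoint_left.mp hd) hy.1 h3
  · exact hopen.comp hUo.isOpenMap_subtype_val

/-- A space that receives a surjective local homeomorphism from a manifold is a manifold. -/
theorem chartedSpace_of_isLocalHomeomorph (H : Type*) {K N : Type*} [TopologicalSpace H]
    [TopologicalSpace K] [ChartedSpace H K] [TopologicalSpace N] (Φ : K → N)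
    (h : IsLocalHomeomorph Φ) (hs : Surjective Φ) : Nonempty (ChartedSpace H N) := by
  choose g hg using hs
  choose e he using h
  let ch : N → OpenPartialHomeomorph N H := fun y => (e (g y)).symm.trans (chartAt H (g y))
  refine ⟨{ atlas := Set.range ch, chartAt := ch, mem_chart_source := ?_,
            chart_mem_atlas := fun y => ⟨y, rfl⟩ }⟩
  intro y
  have h1 : g y ∈ (e (g y)).source := (he (g y)).1
  have h2 : (e (g y)) (g y) = y := by
    rw [← (he (g y)).2, hg]
  have h3 : (e (g y)).symm y = g y := by
    have := (e (g y)).left_inv h1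
    rwa [h2] at this
  show y ∈ ((e (g y)).symm.trans (chartAt H (g y))).source
  rw [OpenPartialHomeomorph.trans_source]
  refine ⟨?_, ?_⟩
  · rw [OpenPartialHomeomorph.symm_source]
    have := (e (g y)).map_source h1
    rwa [h2] at this
  · show (e (g y)).symm y ∈ (chartAt H (g y)).source
    rw [h3]
    exact mem_chart_source H (g y)

end Pool.Agent.Work.MP_fad7c9_gt
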