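import Mathlib
import Pool.Agent.Work.MP_fad7c9_gt.Conv
import Pool.Agent.Work.MP_fad7c9_gt.Top

set_option autoImplicit false

namespace Pool.Agent.Work.MP_fad7c9_gt

open scoped InnerProductSpace Topology Matrix Quaternion Manifold ContDiff
open Filter

/-- The parameter space. -/
abbrev K9 : Type := Bool × (S3 × (S3 × S3))

/-- The involution `(ε, a, b, s) ↦ (ε, -a, -b, -s)`. -/
noncomputable def inv9 (z : K9) : K9 := (z.1, (-z.2.1, (-z.2.2.1, -z.2.2.2)))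

instance fact4 : Fact (Module.finrank ℝ ℍ[ℝ] = 3 + 1) := ⟨Quaternion.finrank_eq_four⟩

instance compactS3 : CompactSpace S3 := by
  have : ProperSpace ℍ[ℝ] := FiniteDimensional.proper_real ℍ[ℝ]
  exact isCompact_iff_compactSpace.mp (isCompact_sphere _ _)

theorem exists_chartedK9 : Nonempty (ChartedSpace (EuclideanSpace ℝ (Fin 9)) K9) := by
  let c1 : ChartedSpace Unit Bool := ChartedSpace.ofDiscreteTopology
  let c2 : ChartedSpace (ModelProd Unit (ModelProd (EuclideanSpace ℝ (Fin 3))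
    (ModelProd (EuclideanSpace ℝ (Fin 3)) (EuclideanSpace ℝ (Fin 3))))) K9 := inferInstance
  let e1 : (EuclideanSpace ℝ (Fin 3) × (EuclideanSpace ℝ (Fin 3) × EuclideanSpace ℝ (Fin 3)))
      ≃L[ℝ] EuclideanSpace ℝ (Fin 9) := ContinuousLinearEquiv.ofFinrankEq (by simp)
  let e2 : (ModelProd Unit (ModelProd (EuclideanSpace ℝ (Fin 3))
    (ModelProd (EuclideanSpace ℝ (Fin 3)) (EuclideanSpace ℝ (Fin 3))))) ≃ₜ
      EuclideanSpace ℝ (Fin 9) := (Homeomorph.punitProd _).trans e1.toHomeomorph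
  let c3 : ChartedSpace (EuclideanSpace ℝ (Fin 9)) (ModelProd Unit (ModelProd
      (EuclideanSpace ℝ (Fin 3))
      (ModelProd (EuclideanSpace ℝ (Fin 3)) (EuclideanSpace ℝ (Fin 3))))) :=
    e2.toOpenPartialHomeomorph.singletonChartedSpace rfl
  exact ⟨ChartedSpace.comp (EuclideanSpace ℝ (Fin 9)) (ModelProd Unit (ModelProd
      (EuclideanSpace ℝ (Fin 3))
      (ModelProd (EuclideanSpace ℝ (Fin 3)) (EuclideanSpace ℝ (Fin 3))))) K9⟩

theorem toC_apply (T : E8 ≃ₗᵢ[ℝ] E8) (x : S7) : ((toC T x : S7) : E8) = T x := rfl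

theorem toC_inj {T T' : E8 ≃ₗᵢ[ℝ] E8} (h : toC T = toC T') (x : E8) : T x = T' x := by
  by_cases hx : x = 0
  · subst hx; simp
  · have hxn := norm_ne_zero_iff.mpr hx
    have h1 : x = ‖x‖ • (nrm x : E8) := by
      rw [nrm_coe hx, smul_smul, mul_inv_cancel₀ hxn, one_smul]
    have h2 : T (nrm x) = T' (nrm x) := by rw [← toC_apply, ← toC_apply, h]
    rw [h1, map_smul, map_smul, h2]

theorem quat_central {c : ℍ[ℝ]} (h : ∀ x, c * x = x * c) (hn : ‖c‖ = 1) : c = 1 ∨ c = -1 := by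
  have h1 := h qI
  have h2 := h qJ
  have e1 := congrArg QuaternionAlgebra.imJ h1
  have e2 := congrArg QuaternionAlgebra.imK h1
  have e3 := congrArg QuaternionAlgebra.imK h2
  simp [qI, qJ] at e1 e2 e3
  have f1 : c.imI = 0 := by linarith
  have f2 : c.imJ = 0 := by linarith
  have f3 : c.imK = 0 := by linarith
  have h3 : c.re ^ 2 = 1 := by
    have := Quaternion.normSq_eq_norm_mul_self c
    rw [hn, Quaternion.normSq_def', f1, f2, f3] at this
    linarith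
  rcases sq_eq_one_iff.mp h3 with h4 | h4
  · left
    ext <;> simp [f1, f2, f3, h4]
  · right
    ext <;> simp [f1, f2, f3, h4]

theorem Tq_fibre {ε ε' : Bool} {a b s a' b' s' : S3}
    (h : ∀ z, Tq ε a b s z = Tq ε' a' b' s' z) :
    ε = ε' ∧ (((a = a' ∧ b = b') ∧ s = s') ∨ ((a = -a' ∧ b = -b') ∧ s = -s')) := by
  have hne : ∀ t : S3, (t : ℍ[ℝ]) ≠ 0 := fun t => ne_zero_of_mem_unit_sphere t
  have hε : ε = ε' := by
    have h0 := h (1, 0)
    cases ε <;> cases ε'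
    · rfl
    · exfalso
      simp only [Tq, Bool.false_eq_true, if_false, if_true, mul_one, mul_zero, zero_mul] at h0
      have := congrArg Prod.fst h0
      exact mul_ne_zero (hne a) (hne s) this
    · exfalso
      simp only [Tq, Bool.false_eq_true, if_false, if_true, mul_one, mul_zero, zero_mul] at h0
      have := congrArg Prod.fst h0
      exact mul_ne_zero (hne a') (hne s') this.symm
    · rfl
  refine ⟨hε, ?_⟩
  subst hε
  have ha : ∀ x : ℍ[ℝ], (a : ℍ[ℝ]) * x * s = a' * x * s' := by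
    intro x
    have h0 := h (x, 0)
    cases ε
    · simp only [Tq, Bool.false_eq_true, if_false] at h0
      exact congrArg Prod.fst h0
    · simp only [Tq, if_true] at h0
      exact neg_injective (congrArg Prod.snd h0)
  have hb : ∀ x : ℍ[ℝ], (b : ℍ[ℝ]) * x * s = b' * x * s' := by
    intro x
    have h0 := h (0, x)
    cases ε
    · simp only [Tq, Bool.false_eq_true, if_false] at h0
      exact congrArg Prod.snd h0
    · simp only [Tq, if_true] at h0
      exact congrArg Prod.fst h0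
  have hss : ∀ t : S3, (t : ℍ[ℝ]) * star (t : ℍ[ℝ]) = 1 := by
    intro t
    rw [Quaternion.self_mul_star, Quaternion.normSq_eq_norm_mul_self, norm_eq_of_mem_sphere]
    simp
  set c : ℍ[ℝ] := star (a' : ℍ[ℝ]) * a with hc
  set d : ℍ[ℝ] := s' * star (s : ℍ[ℝ]) with hd
  have hcd : ∀ x, c * x = x * d := by
    intro x
    have h1 := congrArg (fun w => star (a' : ℍ[ℝ]) * w * star (s : ℍ[ℝ])) (ha x)
    have l : star (a' : ℍ[ℝ]) * ((a : ℍ[ℝ]) * x * s) * star (s : ℍ[ℝ]) = c * x := by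
      calc _ = (star (a' : ℍ[ℝ]) * a) * x * (s * star (s : ℍ[ℝ])) := by simp only [mul_assoc]
        _ = c * x := by rw [hss, mul_one]
    have r : star (a' : ℍ[ℝ]) * ((a' : ℍ[ℝ]) * x * s') * star (s : ℍ[ℝ]) = x * d := by
      calc _ = (star (a' : ℍ[ℝ]) * a') * x * (s' * star (s : ℍ[ℝ])) := by simp only [mul_assoc]
        _ = x * d := by rw [star_mul_self_one, one_mul]
    exact (l.symm.trans h1).trans r
  have hcd1 : c = d := by simpa using hcd 1
  have hcn : ‖c‖ = 1 := by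
    rw [hc, norm_mul, norm_star, norm_eq_of_mem_sphere, norm_eq_of_mem_sphere, one_mul]
  have hac : (a : ℍ[ℝ]) = a' * c := by rw [hc, ← mul_assoc, hss, one_mul]
  have hsd : (s' : ℍ[ℝ]) = d * s := by rw [hd, mul_assoc, star_mul_self_one, mul_one]
  rcases quat_central (c := c) (fun x => by rw [hcd, ← hcd1]) hcn with h1 | h1
  · left
    have e1 : (s' : ℍ[ℝ]) = s := by rw [hsd, ← hcd1, h1, one_mul]
    refine ⟨⟨Subtype.ext (by rw [hac, h1, mul_one]), ?_⟩, Subtype.ext e1.symm⟩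
    have h2 := hb 1
    rw [mul_one, mul_one, e1] at h2
    exact Subtype.ext (mul_right_cancel₀ (hne s) h2)
  · right
    have e1 : (s' : ℍ[ℝ]) = -s := by rw [hsd, ← hcd1, h1, neg_one_mul]
    refine ⟨⟨Subtype.ext ?_, ?_⟩, Subtype.ext ?_⟩
    · rw [hac, h1, mul_neg, mul_one]; rfl
    · have h2 := hb 1
      rw [mul_one, mul_one, e1, mul_neg, ← neg_mul] at h2
      exact Subtype.ext (mul_right_cancel₀ (hne s) h2)
    · show (s : ℍ[ℝ]) = -(s' : ℍ[ℝ])
      rw [e1, neg_neg]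

theorem Tq_neg (ε : Bool) (a b s : ℍ[ℝ]) (z : ℍ[ℝ] × ℍ[ℝ]) :
    Tq ε (-a) (-b) (-s) z = Tq ε a b s z := by
  cases ε <;> simp [Tq]

section

variable {A : Fin 4 → Matrix (Fin 8) (Fin 8) ℝ} (hA : CliffordQuadruple A) {ξ : E8}
  (hξ : om (op A) ξ = ξ) (hn : ‖ξ‖ = 1)

/-- The parametrisation of the isometry group. -/
noncomputable def Phi (z : K9) : isometryGroup A :=
  ⟨toC (Tiso (cliff_of hA) hξ hn z.1 z.2.1 z.2.2.1 z.2.2.2),
    toC_mem _ _ (Tiso_AQ (cliff_of hA) hξ hn z.1 z.2.1 z.2.2.1 z.2.2.2)⟩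

theorem Phi_continuous : Continuous (Phi hA hξ hn) := by
  apply Continuous.subtype_mk
  apply ContinuousMap.continuous_of_continuous_uncurry
  apply Continuous.subtype_mk
  show Continuous (fun w : K9 × S7 => UU (cliff_of hA) hξ hn
    (Tq w.1.1 w.1.2.1 w.1.2.2.1 w.1.2.2.2 ((UU (cliff_of hA) hξ hn).symm w.2)))
  apply (UU (cliff_of hA) hξ hn).continuous.comp
  have h1 : Continuous (fun w : Bool × ((ℍ[ℝ] × ℍ[ℝ] × ℍ[ℝ]) × (ℍ[ℝ] × ℍ[ℝ])) =>
      Tq w.1 w.2.1.1 w.2.1.2.1 w.2.1.2.2 w.2.2) :=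
    continuous_prod_of_discrete_left.mpr continuous_Tq
  have h2 : Continuous (fun w : K9 × S7 => (w.1.1, (((w.1.2.1 : ℍ[ℝ]), (w.1.2.2.1 : ℍ[ℝ]),
      (w.1.2.2.2 : ℍ[ℝ])), (UU (cliff_of hA) hξ hn).symm (w.2 : E8)))) := by fun_prop
  exact h1.comp h2

theorem Phi_surjective : Function.Surjective (Phi hA hξ hn) := by
  rintro ⟨f, φ, hφ, hf⟩
  have C := cliff_of hA
  have H := hiso_of hA φ hφ
  obtain ⟨a, b, s, ha, hb, hs, h⟩ := H.classify C (by simp) hξ hn
  have hex : ∃ ε, ∀ z, ext8 φ (Ul (op A) ξ z) = Ul (op A) ξ (Tq ε a b s z) := by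
    rcases h with h | h
    · exact ⟨false, fun z => by obtain ⟨x, y⟩ := z; rw [h]; simp [Tq]⟩
    · exact ⟨true, fun z => by obtain ⟨x, y⟩ := z; rw [h]; simp [Tq]⟩
  obtain ⟨ε, hε⟩ := hex
  refine ⟨(ε, (⟨a, by simpa using ha⟩, (⟨b, by simpa using hb⟩, ⟨s, by simpa using hs⟩))), ?_⟩
  apply Subtype.ext
  ext1 x
  apply Subtype.ext
  obtain ⟨z, hz⟩ := (UU C hξ hn).surjective x
  have h1 : (f x : E8) = ext8 φ x := by rw [hf, ext8_sphere]
  rw [UU_apply] at hz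
  rw [h1, ← hz, hε]
  show Tiso C hξ hn ε _ _ _ (x : E8) = _
  rw [← hz, Tiso_Ul]

theorem Phi_fibre (z w : K9) : Phi hA hξ hn z = Phi hA hξ hn w ↔ w = z ∨ w = inv9 z := by
  constructor
  · intro h
    have h1 := toC_inj (congrArg Subtype.val h)
    have h2 : ∀ t, Tq w.1 w.2.1 w.2.2.1 w.2.2.2 t = Tq z.1 z.2.1 z.2.2.1 z.2.2.2 t := by
      intro t
      have h3 := h1 (Ul (op A) ξ t)
      rw [Tiso_Ul, Tiso_Ul] at h3
      exact ((cliff_of hA).Ul_injective hξ hn h3).symm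
    obtain ⟨e1, ⟨⟨e2, e3⟩, e4⟩ | ⟨⟨e2, e3⟩, e4⟩⟩ := Tq_fibre h2
    · left
      exact Prod.ext e1 (Prod.ext e2 (Prod.ext e3 e4))
    · right
      exact Prod.ext e1 (Prod.ext e2 (Prod.ext e3 e4))
  · rintro (h | h)
    · rw [h]
    · rw [h]
      apply Subtype.ext
      ext1 x
      apply Subtype.ext
      show Tiso (cliff_of hA) hξ hn _ _ _ _ (x : E8) = Tiso (cliff_of hA) hξ hn _ _ _ _ (x : E8)
      rw [Tiso_apply, Tiso_apply]
      congr 1
      exact (Tq_neg _ _ _ _ _).symm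

end

theorem inv9_ne (z : K9) : inv9 z ≠ z := by
  intro h
  have h1 : -z.2.1 = z.2.1 := congrArg (fun w : K9 => w.2.1) h
  exact ne_neg_of_mem_unit_sphere ℝ z.2.1 h1.symm

theorem inv9_inv9 (z : K9) : inv9 (inv9 z) = z := by
  simp [inv9]

theorem inv9_continuous : Continuous inv9 := by
  unfold inv9
  fun_prop

/-- The isometry group is a topological `9`-manifold. -/
theorem main {A : Fin 4 → Matrix (Fin 8) (Fin 8) ℝ} (hA : CliffordQuadruple A) :
    Nonempty (ChartedSpace (EuclideanSpace ℝ (Fin 9)) (isometryGroup A)) := by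
  obtain ⟨ξ₁, -, hξ₁, -, h0, -⟩ := HIso.exists_chiral (cliff_of hA) (by simp)
  have h0n := norm_ne_zero_iff.mpr h0
  have hξ : om (op A) (‖ξ₁‖⁻¹ • ξ₁) = ‖ξ₁‖⁻¹ • ξ₁ := by rw [map_smul, hξ₁]
  have hn : ‖‖ξ₁‖⁻¹ • ξ₁‖ = 1 := by rw [norm_smul, norm_inv, norm_norm, inv_mul_cancel₀ h0n]
  obtain ⟨c⟩ := exists_chartedK9
  exact chartedSpace_of_isLocalHomeomorph (EuclideanSpace ℝ (Fin 9)) (Phi hA hξ hn)
    (isLocalHomeomorph_of_two_to_one _ (Phi_continuous hA hξ hn) (Phi_surjective hA hξ hn)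
      inv9 inv9_continuous inv9_inv9 inv9_ne (Phi_fibre hA hξ hn)) (Phi_surjective hA hξ hn)

end Pool.Agent.Work.MP_fad7c9_gt
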