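import Mathlib

/-!
Definitions used by the statement. Types and instances get short names, so that the statement
stays readable; every instance is Mathlib's.
-/

set_option autoImplicit false

namespace Pool.Agent.Work.MP_fad7c9_gt.Stmt

open scoped Manifold ContDiff

/-- Euclidean 8-space. -/
def R8 : Type := EuclideanSpace ℝ (Fin 8)

/-- Euclidean 7-space, the model space of the charts of the sphere. -/
def R7 : Type := EuclideanSpace ℝ (Fin 7)

noncomputable instance r8Group : NormedAddCommGroup R8 :=
  (inferInstance : NormedAddCommGroup (EuclideanSpace ℝ (Fin 8)))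
noncomputable instance r8Space : NormedSpace ℝ R8 :=
  (inferInstance : NormedSpace ℝ (EuclideanSpace ℝ (Fin 8)))
noncomputable instance r7Group : NormedAddCommGroup R7 :=
  (inferInstance : NormedAddCommGroup (EuclideanSpace ℝ (Fin 7)))
noncomputable instance r7Space : NormedSpace ℝ R7 :=
  (inferInstance : NormedSpace ℝ (EuclideanSpace ℝ (Fin 7)))

/-- The unit sphere of Euclidean 8-space. -/
def S7 : Type := Metric.sphere (0 : R8) 1

/-- The inclusion of the sphere. -/
def incl : S7 → R8 := Subtype.val

/-- The topology of the sphere, induced from Euclidean 8-space. -/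
noncomputable instance s7Top : TopologicalSpace S7 :=
  (inferInstance : TopologicalSpace (Metric.sphere (0 : R8) 1))

/-- Mathlib's smooth structure on the sphere (stereographic charts). -/
noncomputable instance s7Charts : ChartedSpace R7 S7 :=
  (inferInstance : ChartedSpace (EuclideanSpace ℝ (Fin 7))
    (Metric.sphere (0 : EuclideanSpace ℝ (Fin 8)) 1))

/-- The model with corners: Euclidean 7-space, no boundary. -/
noncomputable def I7 : ModelWithCorners ℝ R7 R7 := 𝓘(ℝ, R7)

/-- The smooth diffeomorphisms of the sphere. -/
def Diff7 : Type := Diffeomorph I7 I7 S7 S7 ∞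

/-- The underlying map of a diffeomorphism. -/
def Diff7.map (φ : Diff7) : S7 → S7 := φ.toEquiv

/-- The tangent space of the sphere at a point. -/
abbrev T (x : S7) : Type := TangentSpace I7 x

/-- The differential of a diffeomorphism at a point. -/
noncomputable def Diff7.d (φ : Diff7) (x : S7) : T x → T (φ.map x) := mfderiv I7 I7 φ.map x

/-- A tangent vector of the sphere, seen as a vector of Euclidean 8-space
(the differential of the inclusion). -/
noncomputable def ambient (x : S7) : T x → R8 := mfderiv I7 𝓘(ℝ, R8) incl x

/-- Real `8 × 8` matrices. -/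
abbrev M8 : Type := Matrix (Fin 8) (Fin 8) ℝ

/-- The identity matrix. -/
def one8 : M8 := 1

/-- Four real skew-symmetric `8 × 8` matrices with `A i * A j + A j * A i = -2 δ i j • 1`. -/
structure CliffordQuadruple (A : Fin 4 → M8) : Prop where
  skew : ∀ k, (A k).transpose = -A k
  rel : ∀ i j, A i * A j + A j * A i = (if i = j then (-2 : ℝ) else 0) • one8

/-- The linear vector field of a matrix: `X(M)` at `x` is the vector `M x`. -/
noncomputable def X (M : M8) (x : S7) : R8 := WithLp.toLp 2 (M.mulVec (incl x).ofLp)

/-- The horizontal space at `x`: the span of `X(A 0), ..., X(A 3)` at `x`. -/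
noncomputable def Hor (A : Fin 4 → M8) (x : S7) : Submodule ℝ R8 :=
  Submodule.span ℝ (Set.range fun k => X (A k) x)

/-- A diffeomorphism of the 7-sphere is a sub-Riemannian isometry if its differential maps
horizontal vectors to horizontal vectors and preserves their length. -/
def IsSubRiemannianIsometry (A : Fin 4 → M8) (φ : Diff7) : Prop :=
  ∀ (x : S7) (v : T x), ambient x v ∈ Hor A x →
    ambient (φ.map x) (φ.d x v) ∈ Hor A (φ.map x) ∧
      ‖ambient (φ.map x) (φ.d x v)‖ = ‖ambient x v‖

/-- The set of all sub-Riemannian isometries, inside the space `C(S7, S7)` of continuous maps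
with the compact-open topology. -/
def isometryGroup (A : Fin 4 → M8) : Set C(S7, S7) :=
  {f | ∃ φ : Diff7, IsSubRiemannianIsometry A φ ∧ ∀ x, f x = φ.map x}

end Pool.Agent.Work.MP_fad7c9_gt.Stmt
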