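import Mathlib
import Pool.Agent.Work.MP_fad7c9_gt.Main
import Pool.Agent.Work.MP_fad7c9_gt.Stmt
import Pool.Agent.Work.MP_fad7c9_gt.Exists

set_option autoImplicit false

namespace Pool.Agent.Work.MP_fad7c9_gt

open scoped Manifold ContDiff

theorem ambient_eq (x : S7) (v : TangentSpace (𝓡 7) x) : Stmt.ambient x v = ambient x v := rfl

theorem X_eq (M : Matrix (Fin 8) (Fin 8) ℝ) (x : S7) : Stmt.X M x = X M x := rfl

theorem hor_eq (A : Fin 4 → Matrix (Fin 8) (Fin 8) ℝ) (x : S7) : Stmt.Hor A x = Hor A x := rfl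

theorem iso_iff (A : Fin 4 → Matrix (Fin 8) (Fin 8) ℝ) (φ : Diffeomorph (𝓡 7) (𝓡 7) S7 S7 ∞) :
    Stmt.IsSubRiemannianIsometry A φ ↔ IsSubRiemannianIsometry A φ := Iff.rfl

theorem bridge (A : Fin 4 → Matrix (Fin 8) (Fin 8) ℝ) (hA : Stmt.CliffordQuadruple A) :
    Nonempty (ChartedSpace (EuclideanSpace ℝ (Fin 9)) (Stmt.isometryGroup A)) := by
  have h := main (A := A) ⟨hA.skew, hA.rel⟩
  exact h

/-- The hypothesis of the main result is satisfiable. -/
theorem quadruple_exists : ∃ A, Stmt.CliffordQuadruple A := by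
  obtain ⟨A, hA⟩ := exists_quadruple
  exact ⟨A, hA.skew, hA.rel⟩

end Pool.Agent.Work.MP_fad7c9_gt
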